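import Pool.Agent.Seym65.Reach

/-!
# From edge sets to weights
-/

namespace Seym65

open Finset

variable {V : Type*} {k : ℕ}

open Classical in
/-- number of labels carried by the arc `(u, y)` -/
noncomputable def wt (E : Fin k → Set (V × V)) (u y : V) : ℕ :=
  ((univ : Finset (Fin k)).filter (fun i => (u, y) ∈ E i)).card

theorem wt_le (E : Fin k → Set (V × V)) (u y : V) : wt E u y ≤ k := by
  classical
  unfold wt
  refine (card_le_univ _).trans ?_
  simp

theorem sum_wt [Fintype V] (E : Fin k → Set (V × V)) (u : V) :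
    ∑ y : V, wt E u y = ∑ i : Fin k, Set.ncard {w : V | (u, w) ∈ E i} := by
  classical
  have h1 : ∀ y, wt E u y = ∑ i : Fin k, if (u, y) ∈ E i then 1 else 0 := by
    intro y
    unfold wt
    rw [card_filter]
  rw [sum_congr rfl (fun y _ => h1 y), sum_comm]
  apply sum_congr rfl
  intro i _
  rw [← card_filter, Set.ncard_eq_toFinset_card']
  congr 1
  ext w
  simp

/-- a closed walk with distinct abstract labels gives a rainbow cycle -/
theorem rainbow_of_not_noClosed (E : Fin k → Set (V × V)) (hloop : ∀ (i : Fin k) (v : V), (v, v) ∉ E i)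
    (h : ¬ NoClosed (wt E)) :
    ∃ (m : ℕ) (c : Fin m → V) (col : Fin m → Fin k),
      2 ≤ m ∧ Function.Injective c ∧ Function.Injective col ∧
        ∀ j : Fin m, (c j, c (finRotate m j)) ∈ E (col j) := by
  classical
  have hm : ∀ u, wt E u u = 0 := by
    intro u
    unfold wt
    rw [card_eq_zero, filter_eq_empty_iff]
    intro i _
    exact hloop i u
  obtain ⟨L, c, lab, hL, hc, hlab, hw⟩ := exists_cycle hm h
  obtain ⟨col, hcol, hmem⟩ := exists_sdr
    (fun j : Fin L => (univ : Finset (Fin k)).filter (fun i => (c j, c (finRotate L j)) ∈ E i))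
    lab hlab (fun j => by
      have := hw j
      unfold wt at this
      convert this)
  exact ⟨L, c, col, hL, hc, hcol, fun j => (mem_filter.1 (hmem j)).2⟩

end Seym65
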