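import Pool.Agent.Seym65.Main

/-!
# Closed walks through `Reach`

`NoC m T`: there is no closed walk with distinct labels inside `T`, expressed through `Reach`.
For `m` supported on `T × T` it is equivalent to `NoClosed m`.
-/

namespace Seym65

open Finset

variable {V : Type*} {m : V → V → ℕ} {T : Finset V}

/-- no closed walk with distinct labels inside `T` -/
def NoC (m : V → V → ℕ) (T : Finset V) : Prop :=
  ∀ (Ω : Finset ℕ) (x : ℕ) (u w : V), x ∈ Ω → w ∈ T → x < m u w → ¬ Reach m T (Ω.erase x) w u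

theorem NoC.not_both (hno : NoC m T) {Λ Λ' : Finset ℕ} (hd : Disjoint Λ Λ') {u y : V}
    (hne : u ≠ y) (h : Reach m T Λ u y) (h' : Reach m T Λ' y u) : False := by
  cases h with
  | refl => exact hne rfl
  | @step _ x _ w _ hx hw hm h3 =>
    have hx' : x ∉ Λ' := fun h => (disjoint_left.1 hd) hx h
    have h4 : Reach m T ((Λ ∪ Λ').erase x) w u := by
      rw [erase_union_distrib, erase_eq_of_notMem hx']
      exact h3.trans h' (disjoint_of_subset_left (erase_subset _ _) hd)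
    exact hno (Λ ∪ Λ') x u w (mem_union_left _ hx) hw hm h4

theorem reach_of_walk {c : ℕ → V} {lab : ℕ → ℕ} :
    ∀ L : ℕ, (∀ i < L, lab i < m (c i) (c (i + 1)) ∧ c (i + 1) ∈ T) →
      (∀ i < L, ∀ j < L, lab i = lab j → i = j) →
      Reach m T ((range L).image lab) (c 0) (c L) := by
  intro L
  induction L with
  | zero => intro _ _; exact Reach.refl _ _
  | succ L ih =>
    intro h1 h2
    have h3 := ih (fun i hi => h1 i (by omega)) (fun i hi j hj => h2 i (by omega) j (by omega))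
    have h4 : lab L ∉ (range L).image lab := by
      intro h
      obtain ⟨i, hi, hli⟩ := mem_image.1 h
      rw [mem_range] at hi
      have := h2 i (by omega) L (by omega) hli
      omega
    have h5 := h3.tail h4 (h1 L (by omega)).2 (h1 L (by omega)).1
    rwa [← image_insert, ← range_add_one] at h5

/-- `NoC` implies `NoClosed` for weights supported on `T` -/
theorem NoC.noClosed (hno : NoC m T) (hs : ∀ u y, 0 < m u y → u ∈ T ∧ y ∈ T) : NoClosed m := by
  intro L c lab hL hc h1 h2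
  have h3 := reach_of_walk (m := m) (T := T) (c := fun i => c (i + 1)) (lab := fun i => lab (i + 1))
    (L - 1) (fun i hi => by
      have := h1 (i + 1) (by omega)
      exact ⟨this, (hs _ _ (Nat.lt_of_le_of_lt (Nat.zero_le _) this)).2⟩)
    (fun i hi j hj hij => by
      have := h2 (i + 1) (by omega) (j + 1) (by omega) hij
      omega)
  have hL1 : L - 1 + 1 = L := by omega
  simp only [hL1, zero_add] at h3
  set Ω := (range L).image lab with hΩ
  have hx : lab 0 ∈ Ω := mem_image.2 ⟨0, mem_range.2 (by omega), rfl⟩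
  have h0 := h1 0 (by omega)
  refine hno Ω (lab 0) (c 0) (c 1) hx (hs _ _ (Nat.lt_of_le_of_lt (Nat.zero_le _) h0)).2 h0 ?_
  rw [hc] at h3
  refine h3.mono ?_
  intro x hx
  obtain ⟨i, hi, rfl⟩ := mem_image.1 hx
  rw [mem_range] at hi
  rw [mem_erase]
  refine ⟨?_, mem_image.2 ⟨i + 1, mem_range.2 (by omega), rfl⟩⟩
  intro h
  have := h2 (i + 1) (by omega) 0 (by omega) h
  omega

/-- `NoClosed` implies `NoC` -/
theorem NoClosed.noC (hno : NoClosed m) : NoC m T := by
  intro Ω x u w hx _ hm h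
  obtain ⟨L, c, lab, h0, hL, h1, h2⟩ := h.walk
  refine hno (L + 1) (fun i => Nat.casesOn i u c) (fun i => Nat.casesOn i x lab) (by omega) hL ?_ ?_
  · intro i hi
    rcases i with _ | i
    · simpa [h0] using hm
    · exact (h1 i (by omega)).2
  · intro i hi j hj hij
    rcases i with _ | i <;> rcases j with _ | j
    · rfl
    · exfalso
      have := (h1 j (by omega)).1
      have h3 : x = lab j := hij
      rw [← h3] at this
      exact notMem_erase _ _ this
    · exfalso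
      have := (h1 i (by omega)).1
      have h3 : lab i = x := hij
      rw [h3] at this
      exact notMem_erase _ _ this
    · have := h2 i (by omega) j (by omega) hij
      omega

/-! ### Splitting a walk at redirected arcs -/

variable {m1 : V → V → ℕ} {T' : Finset V} {Z B : Set V}

/-- every arc of `m1` is an arc of `m` or a redirected arc: `u → b` with `b ∈ B` stands for `u → z`
with `z ∈ Z` -/
def Redir (m m1 : V → V → ℕ) (Z B : Set V) : Prop :=
  ∀ u w x, x < m1 u w → x < m u w ∨ (w ∈ B ∧ ∃ z ∈ Z, x < m u z)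

theorem split_walk (hT : T' ⊆ T) (hr : Redir m m1 Z B) {Ω : Finset ℕ} {u y : V}
    (h : Reach m1 T' Ω u y) : Reach m T Ω u y ∨
      ∃ (Ω1 Ω2 : Finset ℕ) (x : ℕ) (u1 b2 : V), Ω1 ⊆ Ω ∧ Ω2 ⊆ Ω ∧ Disjoint Ω1 Ω2 ∧ x ∈ Ω ∧ x ∉ Ω1 ∧
        x ∉ Ω2 ∧ Reach m T Ω1 u u1 ∧ (∃ z ∈ Z, x < m u1 z) ∧ b2 ∈ B ∧ Reach m T Ω2 b2 y := by
  induction h with
  | refl Ω u => exact Or.inl (Reach.refl _ _)
  | @step Ω x0 u w y hx hw hm _ ih =>
    rcases hr u w x0 hm with hold | ⟨hwB, z, hz, hxz⟩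
    · rcases ih with h1 | ⟨Ω1, Ω2, x, u1, b2, s1, s2, hd, hxΩ, hx1, hx2, r1, hz, hb, r2⟩
      · exact Or.inl (Reach.step hx (hT hw) hold h1)
      · refine Or.inr ⟨insert x0 Ω1, Ω2, x, u1, b2, ?_, ?_, ?_, ?_, ?_, hx2, ?_, hz, hb, r2⟩
        · exact insert_subset hx (s1.trans (erase_subset _ _))
        · exact s2.trans (erase_subset _ _)
        · rw [disjoint_insert_left]
          exact ⟨fun h => notMem_erase x0 Ω (s2 h), hd⟩
        · exact mem_of_mem_erase hxΩ
        · rw [mem_insert, not_or]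
          exact ⟨fun h => notMem_erase x0 Ω (h ▸ hxΩ), hx1⟩
        · refine Reach.step (mem_insert_self _ _) (hT hw) hold ?_
          rw [erase_insert (fun h => notMem_erase x0 Ω (s1 h))]
          exact r1
    · rcases ih with h1 | ⟨Ω1, Ω2, x, u1, b2, s1, s2, hd, hxΩ, hx1, hx2, r1, hz', hb, r2⟩
      · refine Or.inr ⟨∅, Ω.erase x0, x0, u, w, empty_subset _, erase_subset _ _,
          disjoint_empty_left _, hx, notMem_empty _, notMem_erase _ _, Reach.refl _ _, ⟨z, hz, hxz⟩,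
          hwB, h1⟩
      · refine Or.inr ⟨∅, Ω2, x0, u, b2, empty_subset _, s2.trans (erase_subset _ _),
          disjoint_empty_left _, hx, notMem_empty _, fun h => notMem_erase x0 Ω (s2 h),
          Reach.refl _ _, ⟨z, hz, hxz⟩, hb, r2⟩

/-- no closed walk in the redirected weights with labels outside `Λ ∪ Λ'` -/
theorem no_closed_redir (hno : NoC m T) (hT : T' ⊆ T) (hr : Redir m m1 Z B) {Λ Λ' : Finset ℕ}
    (hd : Disjoint Λ Λ') {v0 : V} (hZT : ∀ z ∈ Z, z ∈ T)
    (hZ : ∀ z ∈ Z, Reach m T Λ z v0) (hB : ∀ b ∈ B, b ≠ v0 ∧ Reach m T Λ' v0 b)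
    {Ω : Finset ℕ} (hΩ : Disjoint Ω (Λ ∪ Λ')) {x0 : ℕ} {u w : V} (hx0 : x0 ∈ Ω) (hw : w ∈ T')
    (hm : x0 < m1 u w) : ¬ Reach m1 T' (Ω.erase x0) w u := by
  intro hcl
  -- a walk from `b ∈ B` to `u1`, then to `z ∈ Z`, contradicts `NoC`
  have key : ∀ (Ω' : Finset ℕ) (x : ℕ) (b u1 : V), Ω' ⊆ Ω → x ∈ Ω → x ∉ Ω' → b ∈ B →
      Reach m T Ω' b u1 → (∃ z ∈ Z, x < m u1 z) → False := by
    rintro Ω' x b u1 hs hx hx' hb hreach ⟨z, hz, hxz⟩
    have h1 : Reach m T (insert x Ω') b z := hreach.tail hx' (hZT z hz) hxz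
    have hΩd := disjoint_union_right.1 hΩ
    have hsub : insert x Ω' ⊆ Ω := insert_subset hx hs
    have h2 : Reach m T (insert x Ω' ∪ Λ) b v0 :=
      h1.trans (hZ z hz) (disjoint_of_subset_left hsub hΩd.1)
    refine hno.not_both ?_ (hB b hb).1 h2 (hB b hb).2
    rw [disjoint_union_left]
    exact ⟨disjoint_of_subset_left hsub hΩd.2, hd⟩
  rcases hr u w x0 hm with hold | ⟨hwB, z, hz, hxz⟩
  · rcases split_walk hT hr hcl with h1 | ⟨Ω1, Ω2, x, u1, b2, s1, s2, hd', hxΩ, hx1, hx2, r1, hz, hb, r2⟩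
    · exact hno Ω x0 u w hx0 (hT hw) hold h1
    · -- `b2 ⇝ u → w ⇝ u1`
      have h3 : Reach m T (insert x0 Ω1) u u1 := by
        refine Reach.step (mem_insert_self _ _) (hT hw) hold ?_
        rw [erase_insert (fun h => notMem_erase x0 Ω (s1 h))]
        exact r1
      have h4 : Reach m T (Ω2 ∪ insert x0 Ω1) b2 u1 := by
        refine r2.trans h3 ?_
        rw [disjoint_insert_right]
        exact ⟨fun h => notMem_erase x0 Ω (s2 h), hd'.symm⟩
      refine key (Ω2 ∪ insert x0 Ω1) x b2 u1 ?_ (mem_of_mem_erase hxΩ) ?_ hb h4 hz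
      · exact union_subset (s2.trans (erase_subset _ _))
          (insert_subset hx0 (s1.trans (erase_subset _ _)))
      · rw [mem_union, mem_insert, not_or, not_or]
        exact ⟨hx2, fun h => notMem_erase x0 Ω (h ▸ hxΩ), hx1⟩
  · rcases split_walk hT hr hcl with h1 | ⟨Ω1, Ω2, x, u1, b2, s1, s2, hd', hxΩ, hx1, hx2, r1, hz', hb, r2⟩
    · exact key (Ω.erase x0) x0 w u (erase_subset _ _) hx0 (notMem_erase _ _) hwB h1 ⟨z, hz, hxz⟩
    · exact key Ω2 x0 b2 u (s2.trans (erase_subset _ _)) hx0 (fun h => notMem_erase x0 Ω (s2 h)) hb r2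
        ⟨z, hz, hxz⟩

/-! ### Relabelling -/

/-- remove the labels in `Λ` from the weight -/
noncomputable def cut (Λ : Finset ℕ) (a : ℕ) : ℕ := (range a \ Λ).card

theorem cut_le (Λ : Finset ℕ) (a : ℕ) : cut Λ a ≤ a := by
  unfold cut
  refine (card_le_card sdiff_subset).trans ?_
  simp

theorem infinite_compl (Λ : Finset ℕ) : {x : ℕ | x ∉ Λ}.Infinite :=
  Λ.finite_toSet.infinite_compl

/-- the increasing enumeration of the labels outside `Λ` -/
noncomputable def emb (Λ : Finset ℕ) (i : ℕ) : ℕ := Nat.nth (fun x => x ∉ Λ) i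

theorem emb_notMem (Λ : Finset ℕ) (i : ℕ) : emb Λ i ∉ Λ :=
  Nat.nth_mem_of_infinite (infinite_compl Λ) i

theorem emb_injective (Λ : Finset ℕ) : Function.Injective (emb Λ) :=
  Nat.nth_injective (infinite_compl Λ)

theorem emb_lt {Λ : Finset ℕ} {i a : ℕ} (h : i < cut Λ a) : emb Λ i < a := by
  classical
  unfold emb
  apply Nat.nth_lt_of_lt_count
  rw [Nat.count_eq_card_filter_range]
  unfold cut at h
  rwa [sdiff_eq_filter] at h

theorem reach_emb {m1 : V → V → ℕ} {Λ : Finset ℕ} {Ω : Finset ℕ} {u y : V}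
    (h : Reach (fun a b => cut Λ (m1 a b)) T' Ω u y) : Reach m1 T' (Ω.image (emb Λ)) u y := by
  induction h with
  | refl Ω u => exact Reach.refl _ _
  | @step Ω x u w y hx hw hm _ ih =>
    refine Reach.step (mem_image_of_mem _ hx) hw (emb_lt hm) ?_
    rw [← image_erase (emb_injective Λ)]
    exact ih

/-- the relabelled redirected weight has no closed walk -/
theorem noC_cut (hno : NoC m T) (hT : T' ⊆ T) (hr : Redir m m1 Z B) {Λ Λ' : Finset ℕ}
    (hd : Disjoint Λ Λ') {v0 : V} (hZT : ∀ z ∈ Z, z ∈ T)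
    (hZ : ∀ z ∈ Z, Reach m T Λ z v0) (hB : ∀ b ∈ B, b ≠ v0 ∧ Reach m T Λ' v0 b) :
    NoC (fun a b => cut (Λ ∪ Λ') (m1 a b)) T' := by
  intro Ω x u w hx hw hm hcl
  have h1 := reach_emb hcl
  rw [image_erase (emb_injective _)] at h1
  refine no_closed_redir hno hT hr hd hZT hZ hB (Ω := Ω.image (emb (Λ ∪ Λ'))) ?_
    (mem_image_of_mem _ hx) hw (emb_lt hm) h1
  rw [disjoint_left]
  intro a ha
  obtain ⟨i, _, rfl⟩ := mem_image.1 ha
  exact emb_notMem _ _

end Seym65
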