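import Pool.Agent.Seym65.Noc

/-!
# Deleting the set that reaches a vertex

Let `Z` be the set of vertices that reach `v0` with labels in `Λ` and suppose that `v0` reaches at
least `Δ + 1` vertices (itself included) with labels in `Λ'`.  Delete `Z` and the labels in
`Λ ∪ Λ'`, redirecting the arcs into `Z` to vertices reached from `v0`.  The result is again without
closed walks.
-/

namespace Seym65

open Finset

variable {V : Type*} {m : V → V → ℕ} {T : Finset V} {Δ N : ℕ}

/-- weights on `T` without closed walks, at most `Δ` out-neighbours, weights at most `N` -/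
structure Cfg (m : V → V → ℕ) (T : Finset V) (Δ N : ℕ) : Prop where
  supp : ∀ u y, 0 < m u y → u ∈ T ∧ y ∈ T
  noc : NoC m T
  deg : ∀ u, (T.filter (fun y => 0 < m u y)).card ≤ Δ
  le : ∀ u y, m u y ≤ N

theorem Cfg.noClosed (h : Cfg m T Δ N) : NoClosed m := h.noc.noClosed h.supp

open Classical in
/-- the vertices that reach `v0` -/
noncomputable def ZZ (m : V → V → ℕ) (T : Finset V) (Λ : Finset ℕ) (v0 : V) : Finset V :=
  T.filter (fun z => Reach m T Λ z v0)

theorem mem_ZZ {Λ : Finset ℕ} {v0 z : V} : z ∈ ZZ m T Λ v0 ↔ z ∈ T ∧ Reach m T Λ z v0 := by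
  classical
  unfold ZZ
  rw [mem_filter]

theorem exists_inj {s t : Finset V} (v : V) (h : s.card ≤ t.card) :
    ∃ f : V → V, (∀ x ∈ s, f x ∈ t) ∧ ∀ x ∈ s, ∀ y ∈ s, f x = f y → x = y := by
  have : Nonempty V := ⟨v⟩
  obtain ⟨f, hf, hinj⟩ := (s.finite_toSet).exists_injOn_of_encard_le (t := (t : Set V))
    (by rw [Set.encard_coe_eq_coe_finsetCard, Set.encard_coe_eq_coe_finsetCard]; exact_mod_cast h)
  exact ⟨f, fun x hx => hf hx, fun x hx y hy hxy => hinj hx hy hxy⟩

open Classical in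
/-- **deletion** -/
theorem deletion (h : Cfg m T Δ N) {v0 : V} (hv : v0 ∈ T) {Λ Λ' : Finset ℕ} (hd : Disjoint Λ Λ')
    (hB : Δ + 1 ≤ (RR m T Λ' v0).card) {p M : ℝ} (hM : 0 ≤ M)
    (hreg : ∀ a : ℕ, (1 - p) * a - M ≤ cut (Λ ∪ Λ') a) :
    ∃ m' : V → V → ℕ, Cfg m' (T \ ZZ m T Λ v0) Δ N ∧ ∀ u ∈ T \ ZZ m T Λ v0,
      (1 - p) * ∑ y ∈ T, (m u y : ℝ) - M * Δ ≤ ∑ y ∈ T \ ZZ m T Λ v0, (m' u y : ℝ) := by
  set Z := ZZ m T Λ v0 with hZ
  set T' := T \ Z with hT'
  set B := (RR m T Λ' v0).erase v0 with hBdef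
  have hBc : Δ ≤ B.card := by
    rw [hBdef, card_erase_of_mem (self_mem_RR hv)]
    omega
  have hBmem : ∀ b ∈ B, b ∈ T' ∧ b ≠ v0 ∧ Reach m T Λ' v0 b := by
    intro b hb
    have h1 := ne_of_mem_erase hb
    have h2 := mem_RR.1 (mem_of_mem_erase hb)
    refine ⟨?_, h1, h2.2⟩
    rw [hT', mem_sdiff]
    refine ⟨h2.1, fun h3 => ?_⟩
    exact h.noc.not_both hd h1 (mem_ZZ.1 h3).2 h2.2
  have hZT : Z ⊆ T := fun z hz => (mem_ZZ.1 hz).1
  -- the injections
  set O : V → Finset V := fun u => T.filter (fun y => 0 < m u y) with hO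
  have hσ : ∀ u, ∃ f : V → V, (∀ x ∈ O u ∩ Z, f x ∈ B \ O u) ∧
      ∀ x ∈ O u ∩ Z, ∀ y ∈ O u ∩ Z, f x = f y → x = y := by
    intro u
    apply exists_inj v0
    have h1 : (O u ∩ Z).card + (B ∩ O u).card ≤ (O u).card := by
      rw [← card_union_of_disjoint]
      · exact card_le_card (union_subset inter_subset_left inter_subset_right)
      · rw [disjoint_left]
        intro x hx hx'
        exact (mem_sdiff.1 (hBmem x (mem_inter.1 hx').1).1).2 (mem_inter.1 hx).2
    have h2 : (B \ O u).card + (B ∩ O u).card = B.card := card_sdiff_add_card_inter _ _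
    have h3 := h.deg u
    have h4 : (O u).card ≤ Δ := h3
    omega
  choose σ hσ1 hσ2 using hσ
  -- the new weight
  set m1 : V → V → ℕ := fun u y =>
    if u ∈ T' ∧ y ∈ T' then m u y + ∑ z ∈ (O u ∩ Z).filter (fun z => σ u z = y), m u z else 0
    with hm1
  have hcase : ∀ u y, u ∈ T' → y ∈ T' → (m1 u y = m u y ∨
      (∃ z ∈ O u ∩ Z, σ u z = y ∧ m1 u y = m u z)) := by
    intro u y hu hy
    simp only [hm1, if_pos (And.intro hu hy)]
    by_cases hex : ∃ z ∈ O u ∩ Z, σ u z = y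
    · obtain ⟨z, hz, hzy⟩ := hex
      right
      refine ⟨z, hz, hzy, ?_⟩
      have h1 : (O u ∩ Z).filter (fun z => σ u z = y) = {z} := by
        ext z'
        rw [mem_filter, mem_singleton]
        constructor
        · rintro ⟨h1, h2⟩
          exact hσ2 u z' h1 z hz (h2.trans hzy.symm)
        · rintro rfl
          exact ⟨hz, hzy⟩
      have h2 : m u y = 0 := by
        have h3 := (mem_sdiff.1 (hσ1 u z hz)).2
        rw [hzy] at h3
        by_contra h4
        exact h3 (mem_filter.2 ⟨(mem_sdiff.1 hy).1, Nat.pos_of_ne_zero h4⟩)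
      rw [h1, h2, sum_singleton, zero_add]
    · left
      push Not at hex
      rw [filter_eq_empty_iff.2 (fun z hz => hex z hz), sum_empty, add_zero]
  have hzero : ∀ u y, ¬ (u ∈ T' ∧ y ∈ T') → m1 u y = 0 := by
    intro u y hn
    simp only [hm1, if_neg hn]
  have hredir : Redir m m1 (Z : Set V) (B : Set V) := by
    intro u w x hx
    by_cases hn : u ∈ T' ∧ w ∈ T'
    · rcases hcase u w hn.1 hn.2 with h1 | ⟨z, hz, hzw, h1⟩
      · left; rwa [h1] at hx
      · right
        refine ⟨?_, z, (mem_inter.1 hz).2, by rwa [h1] at hx⟩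
        rw [← hzw]
        exact (mem_sdiff.1 (hσ1 u z hz)).1
    · rw [hzero u w hn] at hx
      exact absurd hx (Nat.not_lt_zero _)
  have hm1le : ∀ u y, m1 u y ≤ N := by
    intro u y
    by_cases hn : u ∈ T' ∧ y ∈ T'
    · rcases hcase u y hn.1 hn.2 with h1 | ⟨z, _, _, h1⟩ <;> rw [h1] <;> exact h.le _ _
    · rw [hzero u y hn]; exact Nat.zero_le _
  have hdeg1 : ∀ u, (T'.filter (fun y => 0 < m1 u y)).card ≤ Δ := by
    intro u
    by_cases hu : u ∈ T'
    · have hsub : T'.filter (fun y => 0 < m1 u y) ⊆ (O u \ Z) ∪ (O u ∩ Z).image (σ u) := by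
        intro y hy
        rw [mem_filter] at hy
        rcases hcase u y hu hy.1 with h1 | ⟨z, hz, hzy, h1⟩
        · rw [h1] at hy
          refine mem_union_left _ (mem_sdiff.2 ⟨?_, (mem_sdiff.1 hy.1).2⟩)
          exact mem_filter.2 ⟨(mem_sdiff.1 hy.1).1, hy.2⟩
        · exact mem_union_right _ (mem_image.2 ⟨z, hz, hzy⟩)
      refine (card_le_card hsub).trans ((card_union_le _ _).trans ?_)
      have h1 : ((O u ∩ Z).image (σ u)).card ≤ (O u ∩ Z).card := card_image_le
      have h2 : (O u \ Z).card + (O u ∩ Z).card = (O u).card := card_sdiff_add_card_inter _ _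
      have h3 : (O u).card ≤ Δ := h.deg u
      omega
    · have : T'.filter (fun y => 0 < m1 u y) = ∅ := by
        rw [filter_eq_empty_iff]
        intro y _
        rw [hzero u y (fun h => hu h.1)]
        exact lt_irrefl 0
      rw [this, card_empty]
      exact Nat.zero_le _
  have hsum1 : ∀ u ∈ T', ∑ y ∈ T', (m1 u y : ℝ) = ∑ y ∈ T, (m u y : ℝ) := by
    intro u hu
    have h1 : ∑ y ∈ T', m1 u y = ∑ y ∈ T', m u y + ∑ z ∈ O u ∩ Z, m u z := by
      have h2 : ∑ y ∈ T', m1 u y = ∑ y ∈ T', (m u y +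
          ∑ z ∈ (O u ∩ Z).filter (fun z => σ u z = y), m u z) := by
        apply sum_congr rfl
        intro y hy
        simp only [hm1, if_pos (And.intro hu hy)]
      rw [h2, sum_add_distrib]
      congr 1
      exact sum_fiberwise_of_maps_to (s := O u ∩ Z) (t := T') (g := σ u)
        (fun z hz => (hBmem _ (mem_sdiff.1 (hσ1 u z hz)).1).1) (fun z => m u z)
    have h2 : ∑ z ∈ O u ∩ Z, m u z = ∑ z ∈ Z, m u z := by
      apply sum_subset inter_subset_right
      intro z hz hz'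
      by_contra h3
      exact hz' (mem_inter.2 ⟨mem_filter.2 ⟨hZT hz, Nat.pos_of_ne_zero h3⟩, hz⟩)
    rw [h2, sum_sdiff hZT] at h1
    exact_mod_cast h1
  refine ⟨fun a b => cut (Λ ∪ Λ') (m1 a b), ⟨?_, ?_, ?_, ?_⟩, ?_⟩
  · intro u y hpos
    by_contra hn
    rw [hzero u y hn] at hpos
    simp [cut] at hpos
  · exact noC_cut h.noc sdiff_subset hredir hd (fun z hz => hZT hz)
      (fun z hz => (mem_ZZ.1 hz).2) (fun b hb => (hBmem b hb).2)
  · intro u
    refine le_trans (card_le_card ?_) (hdeg1 u)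
    intro y hy
    rw [mem_filter] at hy ⊢
    exact ⟨hy.1, lt_of_lt_of_le hy.2 (cut_le _ _)⟩
  · intro u y
    exact (cut_le _ _).trans (hm1le u y)
  · intro u hu
    rw [← hsum1 u hu]
    have h1 : ∑ y ∈ T', (cut (Λ ∪ Λ') (m1 u y) : ℝ) =
        ∑ y ∈ T'.filter (fun y => 0 < m1 u y), (cut (Λ ∪ Λ') (m1 u y) : ℝ) := by
      symm
      apply sum_subset (filter_subset _ _)
      intro y hy hy'
      have : m1 u y = 0 := by
        by_contra h2
        exact hy' (mem_filter.2 ⟨hy, Nat.pos_of_ne_zero h2⟩)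
      rw [this]
      simp [cut]
    have h2 : ∑ y ∈ T', (m1 u y : ℝ) = ∑ y ∈ T'.filter (fun y => 0 < m1 u y), (m1 u y : ℝ) := by
      symm
      apply sum_subset (filter_subset _ _)
      intro y hy hy'
      have : m1 u y = 0 := by
        by_contra h2
        exact hy' (mem_filter.2 ⟨hy, Nat.pos_of_ne_zero h2⟩)
      rw [this]
      simp
    rw [h1, h2, mul_sum]
    have h3 : ∑ y ∈ T'.filter (fun y => 0 < m1 u y), ((1 - p) * (m1 u y : ℝ) - M) ≤
        ∑ y ∈ T'.filter (fun y => 0 < m1 u y), (cut (Λ ∪ Λ') (m1 u y) : ℝ) :=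
      sum_le_sum (fun y _ => hreg _)
    rw [sum_sub_distrib, sum_const, nsmul_eq_mul] at h3
    have h4 : ((T'.filter (fun y => 0 < m1 u y)).card : ℝ) ≤ Δ := by exact_mod_cast hdeg1 u
    have h5 := mul_le_mul_of_nonneg_right h4 hM
    linarith

end Seym65
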