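import Mathlib

/-!
# Expectation of a function of a random subset of `range N`

`EE p N F` is the expectation of `F Λ`, each element of `range N` being put in `Λ` independently with
probability `p`.
-/

namespace Seym65

open Finset

/-- expectation over random subsets of `range N` of density `p` -/
noncomputable def EE (p : ℝ) : ℕ → (Finset ℕ → ℝ) → ℝ
  | 0, F => F ∅
  | N + 1, F => (1 - p) * EE p N F + p * EE p N (fun Λ => F (insert N Λ))

theorem EE_zero (p : ℝ) (F : Finset ℕ → ℝ) : EE p 0 F = F ∅ := rfl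

theorem EE_succ (p : ℝ) (N : ℕ) (F : Finset ℕ → ℝ) :
    EE p (N + 1) F = (1 - p) * EE p N F + p * EE p N (fun Λ => F (insert N Λ)) := rfl

theorem range_sub {N : ℕ} {Λ : Finset ℕ} (h : Λ ⊆ range N) : Λ ⊆ range (N + 1) :=
  h.trans (range_subset_range.2 (Nat.le_succ N))

theorem insert_sub {N : ℕ} {Λ : Finset ℕ} (h : Λ ⊆ range N) : insert N Λ ⊆ range (N + 1) :=
  insert_subset (mem_range.2 (Nat.lt_succ_self N)) (range_sub h)

theorem EE_congr (p : ℝ) (N : ℕ) {F G : Finset ℕ → ℝ} (h : ∀ Λ ⊆ range N, F Λ = G Λ) :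
    EE p N F = EE p N G := by
  induction N generalizing F G with
  | zero => exact h ∅ (by simp)
  | succ N ih =>
    rw [EE_succ, EE_succ, ih (fun Λ hΛ => h Λ (range_sub hΛ)),
      ih (fun Λ hΛ => h (insert N Λ) (insert_sub hΛ))]

theorem EE_mono {p : ℝ} (h0 : 0 ≤ p) (h1 : p ≤ 1) (N : ℕ) {F G : Finset ℕ → ℝ}
    (h : ∀ Λ ⊆ range N, F Λ ≤ G Λ) : EE p N F ≤ EE p N G := by
  induction N generalizing F G with
  | zero => exact h ∅ (by simp)
  | succ N ih =>
    rw [EE_succ, EE_succ]
    exact add_le_add (mul_le_mul_of_nonneg_left (ih (fun Λ hΛ => h Λ (range_sub hΛ))) (by linarith))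
      (mul_le_mul_of_nonneg_left (ih (fun Λ hΛ => h (insert N Λ) (insert_sub hΛ))) h0)

theorem EE_const (p : ℝ) (N : ℕ) (c : ℝ) : EE p N (fun _ => c) = c := by
  induction N with
  | zero => rfl
  | succ N ih => rw [EE_succ, ih]; ring

theorem EE_add (p : ℝ) (N : ℕ) (F G : Finset ℕ → ℝ) :
    EE p N (fun Λ => F Λ + G Λ) = EE p N F + EE p N G := by
  induction N generalizing F G with
  | zero => rfl
  | succ N ih => rw [EE_succ, EE_succ, EE_succ, ih, ih]; ring

theorem EE_smul (p : ℝ) (N : ℕ) (c : ℝ) (F : Finset ℕ → ℝ) :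
    EE p N (fun Λ => c * F Λ) = c * EE p N F := by
  induction N generalizing F with
  | zero => rfl
  | succ N ih => rw [EE_succ, EE_succ, ih, ih]; ring

theorem EE_neg (p : ℝ) (N : ℕ) (F : Finset ℕ → ℝ) :
    EE p N (fun Λ => -F Λ) = -EE p N F := by
  have h := EE_smul p N (-1) F
  simpa using h

theorem EE_sub (p : ℝ) (N : ℕ) (F G : Finset ℕ → ℝ) :
    EE p N (fun Λ => F Λ - G Λ) = EE p N F - EE p N G := by
  have h := EE_add p N F (fun Λ => -G Λ)
  rw [EE_neg] at h
  simpa [sub_eq_add_neg] using h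

theorem EE_nonneg {p : ℝ} (h0 : 0 ≤ p) (h1 : p ≤ 1) (N : ℕ) {F : Finset ℕ → ℝ}
    (h : ∀ Λ ⊆ range N, 0 ≤ F Λ) : 0 ≤ EE p N F := by
  have := EE_mono h0 h1 N h
  rwa [EE_const] at this

theorem EE_p_zero (N : ℕ) (F : Finset ℕ → ℝ) : EE 0 N F = F ∅ := by
  induction N generalizing F with
  | zero => rfl
  | succ N ih => rw [EE_succ, ih]; ring

/-- Harris' inequality for two decreasing functions -/
theorem harris {p : ℝ} (h0 : 0 ≤ p) (h1 : p ≤ 1) (N : ℕ) {F G : Finset ℕ → ℝ}
    (hF : Antitone F) (hG : Antitone G) : EE p N F * EE p N G ≤ EE p N (fun Λ => F Λ * G Λ) := by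
  induction N generalizing F G with
  | zero => exact le_rfl
  | succ N ih =>
    have hins : ∀ {H : Finset ℕ → ℝ}, Antitone H → Antitone (fun Λ => H (insert N Λ)) :=
      fun hH A B hAB => hH (insert_subset_insert N hAB)
    have e1 := ih hF hG
    have e2 := ih (hins hF) (hins hG)
    have e3 : EE p N (fun Λ => F (insert N Λ)) ≤ EE p N F :=
      EE_mono h0 h1 N (fun Λ _ => hF (subset_insert N Λ))
    have e4 : EE p N (fun Λ => G (insert N Λ)) ≤ EE p N G :=
      EE_mono h0 h1 N (fun Λ _ => hG (subset_insert N Λ))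
    rw [EE_succ, EE_succ, EE_succ]
    have e5 : 0 ≤ p * (1 - p) * ((EE p N F - EE p N (fun Λ => F (insert N Λ))) *
        (EE p N G - EE p N (fun Λ => G (insert N Λ)))) :=
      mul_nonneg (mul_nonneg h0 (by linarith)) (mul_nonneg (by linarith) (by linarith))
    have e6 := mul_le_mul_of_nonneg_left e1 (show 0 ≤ 1 - p by linarith)
    have e7 := mul_le_mul_of_nonneg_left e2 h0
    nlinarith [e5, e6, e7]

/-- symmetry at `1/2` -/
theorem EE_compl (N : ℕ) (F : Finset ℕ → ℝ) :
    EE (1 / 2) N (fun Λ => F (range N \ Λ)) = EE (1 / 2) N F := by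
  induction N generalizing F with
  | zero => rw [EE_zero, EE_zero]; simp
  | succ N ih =>
    rw [EE_succ, EE_succ]
    have e1 : EE (1 / 2) N (fun Λ => F (range (N + 1) \ Λ)) =
        EE (1 / 2) N (fun Λ => F (insert N Λ)) := by
      rw [← ih (fun Λ => F (insert N Λ))]
      apply EE_congr
      intro Λ hΛ
      congr 1
      rw [range_add_one, insert_sdiff_of_notMem]
      intro h
      exact absurd (mem_range.1 (hΛ h)) (lt_irrefl N)
    have e2 : EE (1 / 2) N (fun Λ => F (range (N + 1) \ insert N Λ)) = EE (1 / 2) N F := by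
      rw [← ih F]
      apply EE_congr
      intro Λ hΛ
      congr 1
      rw [range_add_one]
      ext x
      simp only [mem_sdiff, mem_insert, mem_range]
      constructor
      · rintro ⟨h1, h2⟩
        push Not at h2
        exact ⟨h1.resolve_left h2.1, h2.2⟩
      · rintro ⟨h1, h2⟩
        exact ⟨Or.inr h1, by rintro (h3 | h3); · omega
                             · exact h2 h3⟩
    rw [e1, e2]
    ring

/-- the discrete gradient -/
noncomputable def grad (N : ℕ) (F : Finset ℕ → ℝ) (Λ : Finset ℕ) : ℝ :=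
  ∑ x ∈ range N \ Λ, (F (insert x Λ) - F Λ)

/-- the derivative of `EE` -/
noncomputable def DD (p : ℝ) : ℕ → (Finset ℕ → ℝ) → ℝ
  | 0, _ => 0
  | N + 1, F => (-EE p N F + (1 - p) * DD p N F) +
      (EE p N (fun Λ => F (insert N Λ)) + p * DD p N (fun Λ => F (insert N Λ)))

theorem hasDerivAt_EE (p : ℝ) (N : ℕ) (F : Finset ℕ → ℝ) :
    HasDerivAt (fun t => EE t N F) (DD p N F) p := by
  induction N generalizing F with
  | zero => exact hasDerivAt_const p _
  | succ N ih =>
    have h1 : HasDerivAt (fun t : ℝ => 1 - t) (-1) p := by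
      simpa using (hasDerivAt_id p).const_sub 1
    have h2 := (h1.mul (ih F)).add ((hasDerivAt_id p).mul (ih (fun Λ => F (insert N Λ))))
    refine h2.congr_deriv ?_
    simp only [DD, id]
    ring

theorem DD_eq (p : ℝ) (N : ℕ) (F : Finset ℕ → ℝ) : (1 - p) * DD p N F = EE p N (grad N F) := by
  induction N generalizing F with
  | zero =>
    rw [EE_zero]
    simp [DD, grad]
  | succ N ih =>
    have e1 : EE p N (grad (N + 1) F) =
        EE p N (fun Λ => F (insert N Λ)) - EE p N F + EE p N (grad N F) := by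
      rw [← EE_sub, ← EE_add]
      apply EE_congr
      intro Λ hΛ
      have hN : N ∉ Λ := fun h => absurd (mem_range.1 (hΛ h)) (lt_irrefl N)
      unfold grad
      rw [range_add_one, insert_sdiff_of_notMem _ hN, sum_insert]
      intro h
      exact absurd (mem_range.1 (mem_sdiff.1 h).1) (lt_irrefl N)
    have e2 : EE p N (fun Λ => grad (N + 1) F (insert N Λ)) =
        EE p N (grad N (fun Λ => F (insert N Λ))) := by
      apply EE_congr
      intro Λ hΛ
      unfold grad
      have h1 : range (N + 1) \ insert N Λ = range N \ Λ := by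
        ext x
        simp only [mem_sdiff, mem_insert, mem_range]
        constructor
        · rintro ⟨h1, h2⟩
          push Not at h2
          have := h2.1
          exact ⟨by omega, h2.2⟩
        · rintro ⟨h1, h2⟩
          exact ⟨by omega, by rintro (h3 | h3); · omega
                              · exact h2 h3⟩
      rw [h1]
      apply sum_congr rfl
      intro x _
      rw [Finset.insert_comm]
    rw [EE_succ, e1, e2, ← ih, ← ih]
    simp only [DD]
    ring

/-- Markov type bound for a supermartingale bounded below by an indicator: hitting probabilities of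
the walk `2 |Λ ∩ [0,L)| - L` -/
noncomputable def hit (h N : ℕ) (Λ : Finset ℕ) : Prop := ∃ L ≤ N, h + L ≤ 2 * (Λ ∩ range L).card

open Classical in
/-- indicator of `hit` -/
noncomputable def hitI (h N : ℕ) (Λ : Finset ℕ) : ℝ := if hit h N Λ then 1 else 0

open Classical in
/-- the potential -/
noncomputable def pot (ρ : ℝ) (h N : ℕ) (Λ : Finset ℕ) : ℝ :=
  if hit h N Λ then 1 else ρ ^ (h + N - 2 * (Λ ∩ range N).card)

theorem inter_range_of_sub {N : ℕ} {Λ : Finset ℕ} (h : Λ ⊆ range N) : Λ ∩ range N = Λ :=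
  inter_eq_left.2 h

theorem insert_inter_range {N L : ℕ} {Λ : Finset ℕ} (hL : L ≤ N) :
    (insert N Λ) ∩ range L = Λ ∩ range L := by
  ext x
  simp only [mem_inter, mem_insert, mem_range]
  constructor
  · rintro ⟨h1, h2⟩
    exact ⟨h1.resolve_left (by omega), h2⟩
  · rintro ⟨h1, h2⟩
    exact ⟨Or.inr h1, h2⟩

theorem pot_step {p ρ : ℝ} (hρ : (1 - p) * ρ = p)
    (h N : ℕ) {Λ : Finset ℕ} (hΛ : Λ ⊆ range N) :
    (1 - p) * pot ρ h (N + 1) Λ + p * pot ρ h (N + 1) (insert N Λ) ≤ pot ρ h N Λ := by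
  have hN : N ∉ Λ := fun h => absurd (mem_range.1 (hΛ h)) (lt_irrefl N)
  have c0 : (Λ ∩ range N).card = Λ.card := by rw [inter_range_of_sub hΛ]
  have c1 : (Λ ∩ range (N + 1)).card = Λ.card := by rw [inter_range_of_sub (range_sub hΛ)]
  have c2 : (insert N Λ ∩ range (N + 1)).card = Λ.card + 1 := by
    rw [inter_range_of_sub (insert_sub hΛ), card_insert_of_notMem hN]
  by_cases hh : hit h N Λ
  · have g1 : hit h (N + 1) Λ := by
      obtain ⟨L, hL, h2⟩ := hh
      exact ⟨L, by omega, h2⟩
    have g2 : hit h (N + 1) (insert N Λ) := by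
      obtain ⟨L, hL, h2⟩ := hh
      exact ⟨L, by omega, by rwa [insert_inter_range hL]⟩
    rw [pot, pot, pot, if_pos hh, if_pos g1, if_pos g2]
    linarith
  · have hlt : 2 * Λ.card < h + N := by
      by_contra hge
      apply hh
      exact ⟨N, le_rfl, by rw [c0]; omega⟩
    have g1 : ¬ hit h (N + 1) Λ := by
      rintro ⟨L, hL, h2⟩
      rcases Nat.lt_or_ge N L with h3 | h3
      · have : L = N + 1 := by omega
        rw [this, c1] at h2
        omega
      · exact hh ⟨L, h3, h2⟩
    have e1 : pot ρ h (N + 1) Λ = ρ ^ (h + N - 2 * Λ.card + 1) := by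
      rw [pot, if_neg g1, c1]
      congr 1
      omega
    have e0 : pot ρ h N Λ = ρ ^ (h + N - 2 * Λ.card) := by
      rw [pot, if_neg hh, c0]
    have e2 : pot ρ h (N + 1) (insert N Λ) = ρ ^ (h + N - 2 * Λ.card - 1) := by
      rw [pot, c2]
      split_ifs with g2
      · obtain ⟨L, hL, h2⟩ := g2
        rcases Nat.lt_or_ge N L with h3 | h3
        · have : L = N + 1 := by omega
          rw [this, c2] at h2
          have : h + N - 2 * Λ.card - 1 = 0 := by omega
          rw [this, pow_zero]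
        · rw [insert_inter_range h3] at h2
          exact absurd ⟨L, h3, h2⟩ hh
      · congr 1
        omega
    rw [e0, e1, e2]
    obtain ⟨k, hk⟩ : ∃ k, h + N - 2 * Λ.card = k + 1 := ⟨h + N - 2 * Λ.card - 1, by omega⟩
    rw [hk, Nat.add_sub_cancel]
    have e3 : (1 - p) * ρ ^ (k + 1 + 1) + p * ρ ^ k = ρ ^ (k + 1) := by
      have e4 : (1 - p) * ρ ^ (k + 1 + 1) = p * ρ ^ (k + 1) := by
        rw [pow_succ ρ (k + 1)]
        linear_combination ρ ^ (k + 1) * hρ
      have e5 : p * ρ ^ k = (1 - p) * ρ ^ (k + 1) := by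
        rw [pow_succ ρ k]
        linear_combination (-ρ ^ k) * hρ
      rw [e4, e5]
      ring
    exact e3.le

theorem EE_pot {p ρ : ℝ} (h0 : 0 ≤ p) (h1 : p ≤ 1) (hρ : (1 - p) * ρ = p)
    (h N : ℕ) : EE p N (pot ρ h N) ≤ ρ ^ h := by
  induction N with
  | zero =>
    rw [EE_zero, pot]
    split_ifs with hh
    · obtain ⟨L, hL, h2⟩ := hh
      have : h = 0 := by
        simp at h2
        omega
      rw [this, pow_zero]
    · simp
  | succ N ih =>
    refine le_trans ?_ ih
    rw [EE_succ, ← EE_smul, ← EE_smul, ← EE_add]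
    exact EE_mono h0 h1 N (fun Λ hΛ => pot_step hρ h N hΛ)

theorem EE_hitI {p ρ : ℝ} (hρ0 : 0 ≤ ρ) (h0 : 0 ≤ p) (h1 : p ≤ 1) (hρ : (1 - p) * ρ = p)
    (h N : ℕ) : EE p N (hitI h N) ≤ ρ ^ h := by
  refine le_trans (EE_mono h0 h1 N ?_) (EE_pot h0 h1 hρ h N)
  intro Λ _
  unfold hitI pot
  split_ifs
  · exact le_rfl
  · exact pow_nonneg hρ0 _

theorem hit_mono {h N : ℕ} {A B : Finset ℕ} (hAB : A ⊆ B) (hh : hit h N A) : hit h N B := by
  obtain ⟨L, hL, h2⟩ := hh
  refine ⟨L, hL, h2.trans ?_⟩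
  have := card_le_card (inter_subset_inter hAB (Subset.refl (range L)))
  omega

theorem hitI_mono (h N : ℕ) : Monotone (hitI h N) := by
  intro A B hAB
  unfold hitI
  split_ifs with h1 h2
  · exact le_rfl
  · exact absurd (hit_mono hAB h1) h2
  · exact zero_le_one
  · exact le_rfl

end Seym65
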