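import Pool.Agent.Seym65.Reach
import Pool.Agent.Seym65.EE

/-!
# The constant 3

If `m` has no closed walk with distinct labels then every non-empty finite set `T` contains a vertex
`u` with `∑_{y ∈ T} m u y < 3 |T|`.
-/

namespace Seym65

open Finset

/-- Abel summation -/
theorem abel_ineq {a : ℕ → ℝ} (ha : Antitone a) (h0 : ∀ x, 0 ≤ a x) {ε : ℕ → ℝ} {M : ℝ} {N : ℕ}
    (hE : ∀ L ≤ N, -M ≤ ∑ x ∈ range L, ε x) : -(M * a 0) ≤ ∑ x ∈ range N, ε x * a x := by
  have key : ∀ L ≤ N, (∑ x ∈ range L, ε x + M) * a L ≤ ∑ x ∈ range L, ε x * a x + M * a 0 := by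
    intro L
    induction L with
    | zero => intro _; simp
    | succ L ih =>
      intro hL
      have h1 := ih (by omega)
      have h2 := hE (L + 1) hL
      rw [sum_range_succ] at h2 ⊢
      rw [sum_range_succ]
      have h3 : (∑ x ∈ range L, ε x + ε L + M) * a (L + 1) ≤
          (∑ x ∈ range L, ε x + ε L + M) * a L :=
        mul_le_mul_of_nonneg_left (ha (Nat.le_succ L)) (by linarith)
      nlinarith [h1, h3]
  have h1 := key N le_rfl
  have h2 : 0 ≤ (∑ x ∈ range N, ε x + M) * a N :=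
    mul_nonneg (by linarith [hE N le_rfl]) (h0 N)
  linarith

/-- profile lemma -/
theorem profile {a : ℕ → ℝ} (ha : Antitone a) (h0 : ∀ x, 0 ≤ a x) {N M : ℕ} {A : ℝ}
    (hA : a 0 ≤ A) (hsum : 3 * A ≤ ∑ x ∈ range N, a x) {Λ : Finset ℕ} (hΛ : Λ ⊆ range N)
    (hM : ¬ hit (M + 1) N Λ) : (3 - M) * A ≤ 2 * ∑ x ∈ range N \ Λ, a x := by
  classical
  set ε : ℕ → ℝ := fun x => if x ∈ Λ then -1 else 1 with hε
  have hE : ∀ L ≤ N, -(M : ℝ) ≤ ∑ x ∈ range L, ε x := by
    intro L hL
    have h1 : 2 * (Λ ∩ range L).card ≤ M + L := by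
      by_contra h2
      exact hM ⟨L, hL, by omega⟩
    have h2 : ∑ x ∈ range L, ε x = (L : ℝ) - 2 * (Λ ∩ range L).card := by
      have h3 : ∀ x, ε x = 1 - 2 * (if x ∈ Λ then 1 else 0) := by
        intro x
        simp only [hε]
        split_ifs <;> norm_num
      rw [sum_congr rfl (fun x _ => h3 x), sum_sub_distrib, ← mul_sum, sum_boole]
      simp only [sum_const, card_range, nsmul_eq_mul, mul_one]
      congr 4
      ext x
      simp only [mem_filter, mem_inter]
      tauto
    rw [h2]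
    have h3 : (2 * (Λ ∩ range L).card : ℝ) ≤ M + L := by exact_mod_cast h1
    linarith
  have h1 := abel_ineq ha h0 hE
  have h2 : 2 * ∑ x ∈ range N \ Λ, a x = ∑ x ∈ range N, a x + ∑ x ∈ range N, ε x * a x := by
    rw [← sum_add_distrib, ← sum_sdiff hΛ, mul_sum]
    have h3 : ∑ x ∈ Λ, (a x + ε x * a x) = 0 := by
      apply sum_eq_zero
      intro x hx
      simp only [hε, if_pos hx]
      ring
    rw [h3, add_zero]
    apply sum_congr rfl
    intro x hx
    simp only [hε, if_neg (mem_sdiff.1 hx).2]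
    ring
  rw [h2]
  have h3 : (M : ℝ) * a 0 ≤ M * A := mul_le_mul_of_nonneg_left hA (Nat.cast_nonneg _)
  linarith

/-- the guaranteed growth factor -/
noncomputable def qf (N : ℕ) (Λ : Finset ℕ) : ℝ :=
  (3 - hitI 1 N Λ - hitI 2 N Λ - hitI 3 N Λ) / 2

theorem hit_anti {h N : ℕ} {Λ : Finset ℕ} (hh : hit (h + 1) N Λ) : hit h N Λ := by
  obtain ⟨L, hL, h2⟩ := hh
  exact ⟨L, hL, by omega⟩

theorem qf_antitone (N : ℕ) : Antitone (qf N) := by
  intro A B hAB
  have h1 := hitI_mono 1 N hAB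
  have h2 := hitI_mono 2 N hAB
  have h3 := hitI_mono 3 N hAB
  unfold qf
  linarith

theorem profile' {a : ℕ → ℝ} (ha : Antitone a) (h0 : ∀ x, 0 ≤ a x) {N : ℕ} {A : ℝ}
    (hA : a 0 ≤ A) (hsum : 3 * A ≤ ∑ x ∈ range N, a x) {Λ : Finset ℕ} (hΛ : Λ ⊆ range N) :
    qf N Λ * A ≤ ∑ x ∈ range N \ Λ, a x := by
  unfold qf hitI
  have hnn : 0 ≤ ∑ x ∈ range N \ Λ, a x := sum_nonneg (fun x _ => h0 x)
  by_cases h3 : hit 3 N Λ
  · have h2 := hit_anti h3
    have h1 := hit_anti h2
    rw [if_pos h1, if_pos h2, if_pos h3]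
    norm_num
    exact hnn
  · have p3 := profile ha h0 hA hsum hΛ (M := 2) h3
    by_cases h2 : hit 2 N Λ
    · have h1 := hit_anti h2
      rw [if_pos h1, if_pos h2, if_neg h3]
      push_cast at p3
      linarith
    · have p2 := profile ha h0 hA hsum hΛ (M := 1) h2
      by_cases h1 : hit 1 N Λ
      · rw [if_pos h1, if_neg h2, if_neg h3]
        push_cast at p2
        linarith
      · have p1 := profile ha h0 hA hsum hΛ (M := 0) h1
        rw [if_neg h1, if_neg h2, if_neg h3]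
        push_cast at p1
        linarith

variable {V : Type*} {m : V → V → ℕ} {T : Finset V}

open Classical in
/-- the set reached from `v` with labels in `Λ` -/
noncomputable def RR (m : V → V → ℕ) (T : Finset V) (Λ : Finset ℕ) (v : V) : Finset V :=
  T.filter (fun y => Reach m T Λ v y)

theorem mem_RR {Λ : Finset ℕ} {v y : V} : y ∈ RR m T Λ v ↔ y ∈ T ∧ Reach m T Λ v y := by
  classical
  unfold RR
  rw [mem_filter]

theorem RR_sub {Λ : Finset ℕ} {v : V} : RR m T Λ v ⊆ T := fun _ hy => (mem_RR.1 hy).1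

theorem self_mem_RR {Λ : Finset ℕ} {v : V} (hv : v ∈ T) : v ∈ RR m T Λ v :=
  mem_RR.2 ⟨hv, Reach.refl _ _⟩

theorem RR_mono {Λ Λ' : Finset ℕ} (h : Λ ⊆ Λ') (v : V) : RR m T Λ v ⊆ RR m T Λ' v := by
  intro y hy
  rw [mem_RR] at hy ⊢
  exact ⟨hy.1, hy.2.mono h⟩

theorem sum_levels (S : Finset V) (u : V) {N : ℕ} (hN : ∀ u y, m u y ≤ N) :
    ∑ x ∈ range N, ((S.filter (fun y => x < m u y)).card : ℝ) = ∑ y ∈ S, (m u y : ℝ) := by
  classical
  have h1 : ∀ x, ((S.filter (fun y => x < m u y)).card : ℝ) =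
      ∑ y ∈ S, if x < m u y then (1 : ℝ) else 0 := by
    intro x
    rw [sum_boole]
  rw [sum_congr rfl (fun x _ => h1 x), sum_comm]
  apply sum_congr rfl
  intro y _
  rw [sum_boole]
  congr 1
  have : (range N).filter (fun x => x < m u y) = range (m u y) := by
    ext x
    simp only [mem_filter, mem_range]
    have := hN u y
    omega
  rw [this, card_range]

open Classical in
/-- every non-empty subset `S` of `T` has a vertex sending weight `3 (|T| - |S|)` out of `S` -/
def Escape (m : V → V → ℕ) (T : Finset V) : Prop :=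
  ∀ S ⊆ T, S.Nonempty → ∃ u ∈ S, (3 : ℝ) * ((T.card : ℝ) - S.card) ≤
      ∑ y ∈ T.filter (fun y => y ∉ S), (m u y : ℝ)

/-- growth of the reached set -/
theorem growth {N : ℕ} (hN : ∀ u y, m u y ≤ N)
    (hS : Escape m T)
    {Λ : Finset ℕ} (hΛ : Λ ⊆ range N) {v : V} (hv : v ∈ T) :
    qf N Λ * ((T.card : ℝ) - (RR m T Λ v).card) ≤
      ∑ x ∈ range N \ Λ, (((RR m T (insert x Λ) v).card : ℝ) - (RR m T Λ v).card) := by
  classical
  obtain ⟨u, hu, hsum⟩ := hS (RR m T Λ v) RR_sub ⟨v, self_mem_RR hv⟩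
  set S := RR m T Λ v with hSdef
  set O := T.filter (fun y => y ∉ S) with hO
  have hcard : (O.card : ℝ) = T.card - S.card := by
    have h1 : O = T \ S := by
      ext y
      simp [hO, mem_sdiff]
    rw [h1, card_sdiff_of_subset RR_sub, Nat.cast_sub (card_le_card RR_sub)]
  set a : ℕ → ℝ := fun x => ((O.filter (fun y => x < m u y)).card : ℝ) with ha
  have hanti : Antitone a := by
    intro x x' hxx
    simp only [ha]
    exact_mod_cast card_le_card (fun y hy => by
      rw [mem_filter] at hy ⊢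
      exact ⟨hy.1, by omega⟩)
  have h0 : ∀ x, 0 ≤ a x := fun x => Nat.cast_nonneg _
  have hA : a 0 ≤ (T.card : ℝ) - S.card := by
    rw [← hcard]
    simp only [ha]
    exact_mod_cast card_le_card (filter_subset _ _)
  have hs : 3 * ((T.card : ℝ) - S.card) ≤ ∑ x ∈ range N, a x := by
    rw [show ∑ x ∈ range N, a x = ∑ y ∈ O, (m u y : ℝ) from sum_levels O u hN]
    exact hsum
  refine (profile' hanti h0 hA hs hΛ).trans ?_
  apply sum_le_sum
  intro x hx
  have hxΛ : x ∉ Λ := (mem_sdiff.1 hx).2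
  have h1 : S ∪ O.filter (fun y => x < m u y) ⊆ RR m T (insert x Λ) v := by
    intro y hy
    rcases mem_union.1 hy with h2 | h2
    · exact RR_mono (subset_insert x Λ) v h2
    · rw [mem_filter, hO, mem_filter] at h2
      rw [mem_RR]
      exact ⟨h2.1.1, (mem_RR.1 hu).2.tail hxΛ h2.1.1 h2.2⟩
  have h2 : Disjoint S (O.filter (fun y => x < m u y)) := by
    rw [disjoint_left]
    intro y hy hy'
    rw [mem_filter, hO, mem_filter] at hy'
    exact hy'.1.2 hy
  have h3 := card_le_card h1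
  rw [card_union_of_disjoint h2] at h3
  have h4 : ((S.card + (O.filter (fun y => x < m u y)).card : ℕ) : ℝ) ≤
      (RR m T (insert x Λ) v).card := by exact_mod_cast h3
  push_cast at h4
  simp only [ha]
  linarith

/-- number of pairs not reached -/
noncomputable def HH (m : V → V → ℕ) (T : Finset V) (Λ : Finset ℕ) : ℝ :=
  ∑ v ∈ T, ((T.card : ℝ) - (RR m T Λ v).card)

theorem HH_antitone : Antitone (HH m T) := by
  intro A B hAB
  unfold HH
  apply sum_le_sum
  intro v _
  have : ((RR m T A v).card : ℝ) ≤ (RR m T B v).card := by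
    exact_mod_cast card_le_card (RR_mono hAB v)
  linarith

theorem HH_nonneg (Λ : Finset ℕ) : 0 ≤ HH m T Λ := by
  unfold HH
  apply sum_nonneg
  intro v _
  have : ((RR m T Λ v).card : ℝ) ≤ T.card := by
    exact_mod_cast card_le_card (RR_sub (m := m) (T := T) (Λ := Λ) (v := v))
  linarith

theorem HH_empty_le : HH m T ∅ ≤ (T.card : ℝ) * (T.card - 1) := by
  unfold HH
  calc ∑ v ∈ T, ((T.card : ℝ) - (RR m T ∅ v).card) ≤ ∑ v ∈ T, ((T.card : ℝ) - 1) := by
        apply sum_le_sum
        intro v hv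
        have : 1 ≤ (RR m T ∅ v).card := card_pos.2 ⟨v, self_mem_RR hv⟩
        have h : (1 : ℝ) ≤ (RR m T ∅ v).card := by exact_mod_cast this
        linarith
    _ = _ := by rw [sum_const, nsmul_eq_mul]

theorem HH_compl (hno : NoClosed m) {Λ Λ' : Finset ℕ} (hd : Disjoint Λ Λ') :
    (T.card : ℝ) * (T.card - 1) ≤ HH m T Λ + HH m T Λ' := by
  classical
  have e1 : ∀ (A : Finset ℕ) (v : V), (T.card : ℝ) - (RR m T A v).card =
      ∑ y ∈ T, if Reach m T A v y then (0 : ℝ) else 1 := by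
    intro A v
    have h1 : ((RR m T A v).card : ℝ) = ∑ y ∈ T, if Reach m T A v y then (1 : ℝ) else 0 := by
      rw [sum_boole]
      rfl
    have h2 : (T.card : ℝ) = ∑ y ∈ T, (1 : ℝ) := by simp
    rw [h1, h2, ← sum_sub_distrib]
    apply sum_congr rfl
    intro y _
    split_ifs <;> norm_num
  have e2 : HH m T Λ' = ∑ v ∈ T, ∑ y ∈ T, if Reach m T Λ' y v then (0 : ℝ) else 1 := by
    unfold HH
    rw [sum_congr rfl (fun v _ => e1 Λ' v), sum_comm]
  have e3 : HH m T Λ = ∑ v ∈ T, ∑ y ∈ T, if Reach m T Λ v y then (0 : ℝ) else 1 := by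
    unfold HH
    rw [sum_congr rfl (fun v _ => e1 Λ v)]
  rw [e2, e3, ← sum_add_distrib]
  calc (T.card : ℝ) * (T.card - 1) = ∑ v ∈ T, ((T.card : ℝ) - 1) := by
        rw [sum_const, nsmul_eq_mul]
    _ ≤ _ := by
        apply sum_le_sum
        intro v hv
        rw [← sum_add_distrib]
        calc ((T.card : ℝ) - 1) = ∑ y ∈ T.erase v, (1 : ℝ) := by
              rw [sum_const, nsmul_eq_mul, mul_one, card_erase_of_mem hv, Nat.cast_sub]
              · simp
              · exact card_pos.2 ⟨v, hv⟩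
          _ ≤ ∑ y ∈ T.erase v, ((if Reach m T Λ v y then (0 : ℝ) else 1) +
                (if Reach m T Λ' y v then (0 : ℝ) else 1)) := by
              apply sum_le_sum
              intro y hy
              have hne : v ≠ y := (ne_of_mem_erase hy).symm
              by_cases h1 : Reach m T Λ v y
              · have h2 : ¬ Reach m T Λ' y v := fun h2 => hno.not_both hd hne h1 h2
                rw [if_neg h2, if_pos h1]
                norm_num
              · rw [if_neg h1]
                split_ifs <;> norm_num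
          _ ≤ _ := by
              apply sum_le_sum_of_subset_of_nonneg (erase_subset _ _)
              intro y _ _
              split_ifs <;> norm_num

theorem grad_HH_le {N : ℕ} (hN : ∀ u y, m u y ≤ N)
    (hS : Escape m T)
    {Λ : Finset ℕ} (hΛ : Λ ⊆ range N) : grad N (HH m T) Λ ≤ -(qf N Λ * HH m T Λ) := by
  have h1 : grad N (HH m T) Λ = -∑ v ∈ T, ∑ x ∈ range N \ Λ,
      (((RR m T (insert x Λ) v).card : ℝ) - (RR m T Λ v).card) := by
    unfold grad HH
    rw [sum_comm, ← sum_neg_distrib]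
    apply sum_congr rfl
    intro x _
    rw [← sum_sub_distrib, ← sum_neg_distrib]
    apply sum_congr rfl
    intro v _
    ring
  rw [h1, neg_le_neg_iff]
  unfold HH
  rw [mul_sum]
  exact sum_le_sum (fun v hv => growth hN hS hΛ hv)

/-- the weight -/
noncomputable def WW (p : ℝ) : ℝ :=
  Real.exp (-(p / (1 - p)) / 2 - (p / (1 - p)) ^ 3 / 6) / (1 - p) ^ 2

theorem hasDerivAt_WW {p : ℝ} (hp : 1 - p ≠ 0) :
    HasDerivAt WW (WW p * ((3 - p / (1 - p) - (p / (1 - p)) ^ 2 - (p / (1 - p)) ^ 3) / 2) / (1 - p))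
      p := by
  have h1 : HasDerivAt (fun t : ℝ => 1 - t) (-1) p := by
    simpa using (hasDerivAt_id p).const_sub 1
  have h2 : HasDerivAt (fun t : ℝ => t / (1 - t)) ((1 * (1 - p) - p * (-1)) / (1 - p) ^ 2) p :=
    (hasDerivAt_id p).div h1 hp
  have h3 : HasDerivAt (fun t : ℝ => -(t / (1 - t)) / 2 - (t / (1 - t)) ^ 3 / 6)
      (-((1 * (1 - p) - p * (-1)) / (1 - p) ^ 2) / 2 -
        (3 * (p / (1 - p)) ^ 2 * ((1 * (1 - p) - p * (-1)) / (1 - p) ^ 2)) / 6) p := by
    have h4 := (h2.neg.div_const 2).sub ((h2.pow 3).div_const 6)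
    refine h4.congr_deriv ?_
    simp
  have h5 : HasDerivAt (fun t : ℝ => (1 - t) ^ 2) (2 * (1 - p) * (-1)) p := by
    have := h1.pow 2
    refine this.congr_deriv ?_
    simp
  have h6 := h3.exp.div h5 (pow_ne_zero 2 hp)
  refine h6.congr_deriv ?_
  unfold WW
  generalize Real.exp (-(p / (1 - p)) / 2 - (p / (1 - p)) ^ 3 / 6) = e
  field_simp
  ring

theorem WW_zero : WW 0 = 1 := by simp [WW]

theorem WW_half : 2 < WW (1 / 2) := by
  have h1 : WW (1 / 2) = Real.exp (-(2 / 3)) * 4 := by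
    unfold WW
    norm_num
    ring
  rw [h1]
  have h2 : Real.exp 2 < 8 := by
    have h3 : Real.exp 2 = Real.exp 1 * Real.exp 1 := by rw [← Real.exp_add]; norm_num
    rw [h3]
    have h4 := Real.exp_one_lt_d9
    have h5 := Real.exp_pos 1
    nlinarith
  have h3 : Real.exp (2 / 3) < 2 := by
    have h4 : Real.exp (2 / 3) ^ 3 < 2 ^ 3 := by
      rw [← Real.exp_nat_mul]
      norm_num
      exact h2
    exact lt_of_pow_lt_pow_left₀ 3 (by norm_num) h4
  have h4 : Real.exp (-(2 / 3)) = (Real.exp (2 / 3))⁻¹ := Real.exp_neg _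
  rw [h4]
  have h5 := Real.exp_pos (2 / 3 : ℝ)
  rw [inv_mul_eq_div, lt_div_iff₀ h5]
  linarith

/-- the differential inequality -/
theorem calc_main {g g' : ℝ → ℝ} (hg : ∀ p, HasDerivAt g (g' p) p)
    (h : ∀ p, 0 ≤ p → p ≤ 1 / 2 → (1 - p) * g' p ≤
      -((3 - p / (1 - p) - (p / (1 - p)) ^ 2 - (p / (1 - p)) ^ 3) / 2 * g p)) :
    g (1 / 2) * WW (1 / 2) ≤ g 0 := by
  have hanti : AntitoneOn (fun p => g p * WW p) (Set.Icc 0 (1 / 2)) := by
    have hd : ∀ p ∈ Set.Icc (0 : ℝ) (1 / 2), HasDerivAt (fun p => g p * WW p)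
        (g' p * WW p + g p * (WW p * ((3 - p / (1 - p) - (p / (1 - p)) ^ 2 -
          (p / (1 - p)) ^ 3) / 2) / (1 - p))) p := by
      intro p hp
      exact (hg p).mul (hasDerivAt_WW (by linarith [hp.2]))
    apply antitoneOn_of_deriv_nonpos (convex_Icc _ _)
    · intro p hp
      exact (hd p hp).continuousAt.continuousWithinAt
    · intro p hp
      rw [interior_Icc] at hp
      exact (hd p ⟨hp.1.le, hp.2.le⟩).differentiableAt.differentiableWithinAt
    · intro p hp
      rw [interior_Icc] at hp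
      rw [(hd p ⟨hp.1.le, hp.2.le⟩).deriv]
      have h1 := h p hp.1.le hp.2.le
      have hpos : 0 < 1 - p := by linarith [hp.2]
      have hW : 0 < WW p := by
        unfold WW
        positivity
      have h2 : g' p * WW p + g p * (WW p * ((3 - p / (1 - p) - (p / (1 - p)) ^ 2 -
          (p / (1 - p)) ^ 3) / 2) / (1 - p)) =
          (WW p / (1 - p)) * ((1 - p) * g' p + ((3 - p / (1 - p) - (p / (1 - p)) ^ 2 -
          (p / (1 - p)) ^ 3) / 2) * g p) := by
        generalize (3 - p / (1 - p) - (p / (1 - p)) ^ 2 - (p / (1 - p)) ^ 3) / 2 = φ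
        field_simp
      rw [h2]
      apply mul_nonpos_of_nonneg_of_nonpos
      · positivity
      · linarith
  have h1 := hanti (Set.left_mem_Icc.2 (by norm_num)) (Set.right_mem_Icc.2 (by norm_num))
    (by norm_num : (0 : ℝ) ≤ 1 / 2)
  simp only [WW_zero, mul_one] at h1
  exact h1

theorem EE_qf {p : ℝ} (h0 : 0 ≤ p) (h1 : p ≤ 1 / 2) (N : ℕ) :
    (3 - p / (1 - p) - (p / (1 - p)) ^ 2 - (p / (1 - p)) ^ 3) / 2 ≤ EE p N (qf N) := by
  have hpos : 0 < 1 - p := by linarith
  have hρ : (1 - p) * (p / (1 - p)) = p := by field_simp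
  have hρ0 : 0 ≤ p / (1 - p) := by positivity
  have k1 := EE_hitI hρ0 h0 (by linarith) hρ 1 N
  have k2 := EE_hitI hρ0 h0 (by linarith) hρ 2 N
  have k3 := EE_hitI hρ0 h0 (by linarith) hρ 3 N
  have e : EE p N (qf N) = (3 - EE p N (hitI 1 N) - EE p N (hitI 2 N) - EE p N (hitI 3 N)) / 2 := by
    have h4 : (qf N) = fun Λ => (1 / 2) * (((3 - hitI 1 N Λ) - hitI 2 N Λ) - hitI 3 N Λ) := by
      funext Λ
      unfold qf
      ring
    rw [h4, EE_smul, EE_sub, EE_sub, EE_sub, EE_const]
    ring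
  rw [e]
  linarith

/-- main step -/
theorem step_three (hno : NoClosed m) {N : ℕ} (hN : ∀ u y, m u y ≤ N) (hT : 2 ≤ T.card)
    (hS : Escape m T) : False := by
  set n : ℝ := (T.card : ℝ) with hn
  have hn2 : (2 : ℝ) ≤ n := by rw [hn]; exact_mod_cast hT
  have h1 := calc_main (g := fun p => EE p N (HH m T)) (g' := fun p => DD p N (HH m T))
    (fun p => hasDerivAt_EE p N (HH m T)) (by
      intro p h0 h1
      rw [DD_eq]
      have a1 : EE p N (grad N (HH m T)) ≤ EE p N (fun Λ => -(qf N Λ * HH m T Λ)) :=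
        EE_mono h0 (by linarith) N (fun Λ hΛ => grad_HH_le hN hS hΛ)
      have a2 : EE p N (fun Λ => -(qf N Λ * HH m T Λ)) = -EE p N (fun Λ => qf N Λ * HH m T Λ) :=
        EE_neg p N _
      have a3 := harris h0 (by linarith : p ≤ 1) N (qf_antitone N) (HH_antitone (m := m) (T := T))
      have a4 := EE_qf h0 h1 N
      have a5 : 0 ≤ EE p N (HH m T) := EE_nonneg h0 (by linarith) N (fun Λ _ => HH_nonneg Λ)
      have a6 := mul_le_mul_of_nonneg_right a4 a5
      rw [a2] at a1
      linarith)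
  simp only [EE_p_zero] at h1
  have h2 : n * (n - 1) ≤ 2 * EE (1 / 2) N (HH m T) := by
    have b1 : EE (1 / 2) N (fun Λ => HH m T Λ + HH m T (range N \ Λ)) =
        2 * EE (1 / 2) N (HH m T) := by
      rw [EE_add, EE_compl]
      ring
    rw [← b1]
    have b2 := EE_mono (p := 1 / 2) (by norm_num) (by norm_num) N
      (F := fun _ => n * (n - 1)) (G := fun Λ => HH m T Λ + HH m T (range N \ Λ))
      (fun Λ _ => HH_compl hno disjoint_sdiff)
    rwa [EE_const] at b2
  have h3 := HH_empty_le (m := m) (T := T)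
  have h4 := WW_half
  have h5 : 0 < n * (n - 1) := mul_pos (by linarith) (by linarith)
  have h6 : 0 < EE (1 / 2) N (HH m T) := by linarith
  have h7 : EE (1 / 2) N (HH m T) * 2 < EE (1 / 2) N (HH m T) * WW (1 / 2) :=
    mul_lt_mul_of_pos_left h4 h6
  linarith

/-- **the constant 3** -/
theorem three (hno : NoClosed m) {N : ℕ} (hN : ∀ u y, m u y ≤ N) :
    ∀ T : Finset V, T.Nonempty → ∃ u ∈ T, ∑ y ∈ T, m u y < 3 * T.card := by
  classical
  intro T
  induction T using Finset.strongInduction with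
  | H T ih =>
    intro hT
    by_contra hcon
    push Not at hcon
    rcases Nat.lt_or_ge T.card 2 with hc | hc
    · have hc1 : T.card = 1 := by
        have := card_pos.2 hT
        omega
      obtain ⟨u, rfl⟩ := card_eq_one.1 hc1
      have := hcon u (mem_singleton_self u)
      rw [sum_singleton, hno.loop] at this
      simp at this
    · refine step_three hno hN hc ?_
      intro S hS hne
      have hsplit : ∀ u, ∑ y ∈ T, (m u y : ℝ) = ∑ y ∈ S, (m u y : ℝ) +
          ∑ y ∈ T.filter (fun y => y ∉ S), (m u y : ℝ) := by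
        intro u
        rw [← sum_filter_add_sum_filter_not T (fun y => y ∈ S), filter_mem_eq_inter,
          inter_eq_right.2 hS]
      rcases hS.eq_or_ssubset with rfl | hss
      · obtain ⟨u, hu⟩ := hne
        refine ⟨u, hu, ?_⟩
        rw [sub_self, mul_zero]
        exact sum_nonneg (fun y _ => Nat.cast_nonneg _)
      · obtain ⟨u, hu, h1⟩ := ih S hss hne
        refine ⟨u, hu, ?_⟩
        have h2 := hcon u (hS hu)
        have h3 : ((∑ y ∈ S, m u y : ℕ) : ℝ) < ((3 * S.card : ℕ) : ℝ) := by exact_mod_cast h1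
        have h4 : ((3 * T.card : ℕ) : ℝ) ≤ ((∑ y ∈ T, m u y : ℕ) : ℝ) := by exact_mod_cast h2
        push_cast at h3 h4
        rw [hsplit u] at h4
        linarith

end Seym65
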