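import Mathlib

/-!
# Walks with distinct labels

`m : V → V → ℕ` is a weight (the number of labels carried by an arc).  A step `u → w` may be given
any label `x < m u w`.  `Reach m T Λ u y`: there is a walk from `u` to `y`, all vertices after `u` in
`T`, whose steps get distinct labels from `Λ`.
-/

namespace Seym65

open Finset

variable {V : Type*}

/-- a walk with distinct labels from `Λ`, inside `T` -/
inductive Reach (m : V → V → ℕ) (T : Finset V) : Finset ℕ → V → V → Prop
  | refl (Λ : Finset ℕ) (u : V) : Reach m T Λ u u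
  | step {Λ : Finset ℕ} {x : ℕ} {u w y : V} (hx : x ∈ Λ) (hw : w ∈ T) (hm : x < m u w)
      (h : Reach m T (Λ.erase x) w y) : Reach m T Λ u y

variable {m : V → V → ℕ} {T : Finset V}

theorem Reach.mono {Λ Λ' : Finset ℕ} {u y : V} (h : Reach m T Λ u y) (hs : Λ ⊆ Λ') :
    Reach m T Λ' u y := by
  induction h generalizing Λ' with
  | refl Λ u => exact Reach.refl _ _
  | step hx hw hm _ ih => exact Reach.step (hs hx) hw hm (ih (erase_subset_erase _ hs))

theorem Reach.mem {Λ : Finset ℕ} {u y : V} (h : Reach m T Λ u y) (hu : u ∈ T) : y ∈ T := by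
  induction h with
  | refl Λ u => exact hu
  | step _ hw _ _ ih => exact ih hw

theorem Reach.tail {Λ : Finset ℕ} {u w y : V} {x : ℕ} (h : Reach m T Λ u w) (hx : x ∉ Λ)
    (hy : y ∈ T) (hm : x < m w y) : Reach m T (insert x Λ) u y := by
  induction h with
  | refl Λ u => exact Reach.step (mem_insert_self x Λ) hy hm (Reach.refl _ _)
  | @step Λ x' u w' w hx' hw hm' _ ih =>
    have hne : x ≠ x' := fun h => hx (h ▸ hx')
    refine Reach.step (mem_insert_of_mem hx') hw hm' ?_
    rw [erase_insert_of_ne hne]
    exact ih (fun h => hx (mem_of_mem_erase h)) hm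

theorem Reach.trans {Λ Λ' : Finset ℕ} {u w y : V} (h : Reach m T Λ u w) (h' : Reach m T Λ' w y)
    (hd : Disjoint Λ Λ') : Reach m T (Λ ∪ Λ') u y := by
  induction h with
  | refl Λ u => exact h'.mono subset_union_right
  | @step Λ x u w' w hx hw hm _ ih =>
    refine Reach.step (mem_union_left _ hx) hw hm ?_
    have hx' : x ∉ Λ' := fun h => (disjoint_left.1 hd) hx h
    rw [erase_union_distrib, erase_eq_of_notMem hx']
    exact ih h' (disjoint_of_subset_left (erase_subset _ _) hd)

/-- the walk as a function -/
theorem Reach.walk {Λ : Finset ℕ} {u y : V} (h : Reach m T Λ u y) :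
    ∃ (L : ℕ) (c : ℕ → V) (lab : ℕ → ℕ), c 0 = u ∧ c L = y ∧
      (∀ i < L, lab i ∈ Λ ∧ lab i < m (c i) (c (i + 1))) ∧
      (∀ i < L, ∀ j < L, lab i = lab j → i = j) := by
  induction h with
  | refl Λ u => exact ⟨0, fun _ => u, fun _ => 0, rfl, rfl, by simp, by simp⟩
  | @step Λ x u w y hx hw hm _ ih =>
    obtain ⟨L, c, lab, h0, hL, h1, h2⟩ := ih
    refine ⟨L + 1, fun i => Nat.casesOn i u c, fun i => Nat.casesOn i x lab, rfl, hL, ?_, ?_⟩
    · intro i hi
      rcases i with _ | i
      · refine ⟨hx, ?_⟩
        simpa [h0] using hm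
      · have := h1 i (by omega)
        exact ⟨mem_of_mem_erase this.1, this.2⟩
    · intro i hi j hj hij
      rcases i with _ | i <;> rcases j with _ | j
      · rfl
      · exfalso
        have := (h1 j (by omega)).1
        have h3 : x = lab j := hij
        rw [← h3] at this
        exact notMem_erase _ _ this
      · exfalso
        have := (h1 i (by omega)).1
        have h3 : lab i = x := hij
        rw [h3] at this
        exact notMem_erase _ _ this
      · have := h2 i (by omega) j (by omega) hij
        omega

/-- `m` has no closed walk with distinct labels -/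
def NoClosed (m : V → V → ℕ) : Prop :=
  ∀ (L : ℕ) (c : ℕ → V) (lab : ℕ → ℕ), 1 ≤ L → c L = c 0 →
    (∀ i < L, lab i < m (c i) (c (i + 1))) → ¬ (∀ i < L, ∀ j < L, lab i = lab j → i = j)

/-- two disjoint label sets do not give walks in both directions -/
theorem NoClosed.not_both (hno : NoClosed m) {Λ Λ' : Finset ℕ} (hd : Disjoint Λ Λ') {u y : V}
    (hne : u ≠ y) (h : Reach m T Λ u y) (h' : Reach m T Λ' y u) : False := by
  obtain ⟨L, c, lab, h0, hL, h1, h2⟩ := (h.trans h' hd).walk
  cases h with
  | refl => exact hne rfl
  | @step _ x _ w _ hx hw hm h3 =>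
    have h4 : Reach m T ((Λ ∪ Λ').erase x) w u := by
      have hx' : x ∉ Λ' := fun h => (disjoint_left.1 hd) hx h
      rw [erase_union_distrib, erase_eq_of_notMem hx']
      exact h3.trans h' (disjoint_of_subset_left (erase_subset _ _) hd)
    obtain ⟨L, c, lab, h0, hL, h1, h2⟩ := h4.walk
    refine hno (L + 1) (fun i => Nat.casesOn i u c) (fun i => Nat.casesOn i x lab) (by omega) hL ?_ ?_
    · intro i hi
      rcases i with _ | i
      · simpa [h0] using hm
      · exact (h1 i (by omega)).2
    · intro i hi j hj hij
      rcases i with _ | i <;> rcases j with _ | j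
      · rfl
      · exfalso
        have := (h1 j (by omega)).1
        have h3 : x = lab j := hij
        rw [← h3] at this
        exact notMem_erase _ _ this
      · exfalso
        have := (h1 i (by omega)).1
        have h3 : lab i = x := hij
        rw [h3] at this
        exact notMem_erase _ _ this
      · have := h2 i (by omega) j (by omega) hij
        omega

/-- no loops -/
theorem NoClosed.loop (hno : NoClosed m) (u : V) : m u u = 0 := by
  by_contra h
  refine hno 1 (fun _ => u) (fun _ => 0) le_rfl rfl ?_ ?_
  · intro i _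
    exact Nat.pos_of_ne_zero h
  · intro i hi j hj _
    omega

/-- from a closed walk to a cycle -/
theorem exists_cycle (hm : ∀ u, m u u = 0) (h : ¬ NoClosed m) :
    ∃ (L : ℕ) (c : Fin L → V) (lab : Fin L → ℕ), 2 ≤ L ∧ Function.Injective c ∧
      Function.Injective lab ∧ ∀ j : Fin L, lab j < m (c j) (c (finRotate L j)) := by
  classical
  unfold NoClosed at h
  push Not at h
  have hex : ∃ L : ℕ, ∃ (c : ℕ → V) (lab : ℕ → ℕ), 1 ≤ L ∧ c L = c 0 ∧
      (∀ i < L, lab i < m (c i) (c (i + 1))) ∧ (∀ i < L, ∀ j < L, lab i = lab j → i = j) := by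
    obtain ⟨L, c, lab, h1, h2, h3, h4⟩ := h
    exact ⟨L, c, lab, h1, h2, h3, h4⟩
  obtain ⟨c, lab, h1, h2, h3, h4⟩ := Nat.find_spec hex
  have hmin := fun {L : ℕ} (hL : L < Nat.find hex) => Nat.find_min hex hL
  set L := Nat.find hex with hLdef
  have hinj : ∀ i j, i < j → j < L → c i ≠ c j := by
    intro i j hij hj hc
    refine hmin (L := j - i) (by omega) ⟨fun t => c (i + t), fun t => lab (i + t), by omega, ?_, ?_, ?_⟩
    · change c (i + (j - i)) = c (i + 0)
      rw [show i + (j - i) = j by omega, add_zero, hc]
    · intro t ht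
      exact h3 (i + t) (by omega)
    · intro s hs t ht hst
      have := h4 (i + s) (by omega) (i + t) (by omega) hst
      omega
  have hL2 : 2 ≤ L := by
    by_contra hlt
    have hL1 : L = 1 := by omega
    rw [hL1] at h2 h3
    have := h3 0 (by omega)
    rw [zero_add, h2, hm] at this
    omega
  refine ⟨L, fun j => c j, fun j => lab j, hL2, ?_, ?_, ?_⟩
  · intro i j hij
    by_contra hne
    rcases lt_or_gt_of_ne (fun h => hne (Fin.ext h) : (i : ℕ) ≠ j) with hlt | hlt
    · exact hinj i j hlt j.2 hij
    · exact hinj j i hlt i.2 hij.symm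
  · intro i j hij
    exact Fin.ext (h4 i i.2 j j.2 hij)
  · intro j
    have key : c ((finRotate L j : Fin L) : ℕ) = c (j + 1) := by
      obtain ⟨L', hL'⟩ : ∃ L', L = L' + 1 := ⟨L - 1, by omega⟩
      clear_value L
      subst hL'
      rw [finRotate_apply]
      by_cases hj : (j : ℕ) = L'
      · have : j = Fin.last L' := Fin.ext hj
        rw [this, Fin.last_add_one]
        simp [h2]
      · have hlt : j < Fin.last L' := by
          rw [Fin.lt_def]
          have := j.2
          simp only [Fin.val_last]
          omega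
        rw [Fin.val_add_one_of_lt hlt]
    change lab j < m (c j) (c (finRotate L j : Fin L))
    rw [key]
    exact h3 j j.2

/-- distinct representatives -/
theorem exists_sdr {L k : ℕ} (S : Fin L → Finset (Fin k)) (lab : Fin L → ℕ)
    (hlab : Function.Injective lab) (h : ∀ j, lab j < (S j).card) :
    ∃ col : Fin L → Fin k, Function.Injective col ∧ ∀ j, col j ∈ S j := by
  classical
  refine (Finset.all_card_le_biUnion_card_iff_exists_injective S).1 ?_
  intro s
  rcases s.eq_empty_or_nonempty with rfl | hs
  · simp
  obtain ⟨j, hj, hmax⟩ := s.exists_max_image lab hs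
  calc s.card = (s.image lab).card := (card_image_of_injective s hlab).symm
    _ ≤ (range (lab j + 1)).card := by
        apply card_le_card
        intro x hx
        obtain ⟨i, hi, rfl⟩ := mem_image.1 hx
        rw [mem_range]
        have := hmax i hi
        omega
    _ = lab j + 1 := card_range _
    _ ≤ (S j).card := h j
    _ ≤ (s.biUnion S).card := card_le_card (subset_biUnion_of_mem S hj)

end Seym65
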