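import Pool.Agent.Seym65.Del

/-!
# Regularity of random label sets, further facts on `EE`
-/

namespace Seym65

open Finset

/-! ### more on `EE` -/

theorem EE_mono_p {p p' : ℝ} (h0 : 0 ≤ p) (hpp : p ≤ p') (h1 : p' ≤ 1) (N : ℕ) {F : Finset ℕ → ℝ}
    (hF : Monotone F) : EE p N F ≤ EE p' N F := by
  induction N generalizing F with
  | zero => exact le_rfl
  | succ N ih =>
    have hins : Monotone (fun Λ => F (insert N Λ)) := fun A B hAB => hF (insert_subset_insert N hAB)
    have e1 := ih hF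
    have e2 := ih hins
    have e3 : EE p N F ≤ EE p N (fun Λ => F (insert N Λ)) :=
      EE_mono h0 (hpp.trans h1) N (fun Λ _ => hF (subset_insert N Λ))
    rw [EE_succ, EE_succ]
    have e4 := mul_le_mul_of_nonneg_left e1 (show 0 ≤ 1 - p' by linarith)
    have e5 := mul_le_mul_of_nonneg_left e2 (show 0 ≤ p' by linarith)
    have e6 : 0 ≤ (p' - p) * (EE p N (fun Λ => F (insert N Λ)) - EE p N F) :=
      mul_nonneg (by linarith) (by linarith)
    linarith

theorem EE_anti_p {p p' : ℝ} (h0 : 0 ≤ p) (hpp : p ≤ p') (h1 : p' ≤ 1) (N : ℕ) {F : Finset ℕ → ℝ}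
    (hF : Antitone F) : EE p' N F ≤ EE p N F := by
  have h := EE_mono_p h0 hpp h1 N (F := fun Λ => -F Λ) (fun A B hAB => neg_le_neg (hF hAB))
  rw [EE_neg, EE_neg] at h
  linarith

theorem exists_le_EE {p : ℝ} (h0 : 0 ≤ p) (h1 : p ≤ 1) (N : ℕ) (F : Finset ℕ → ℝ) :
    ∃ A ⊆ range N, F A ≤ EE p N F := by
  obtain ⟨A, hA, hmin⟩ := (range N).powerset.exists_min_image F ⟨∅, by simp⟩
  refine ⟨A, mem_powerset.1 hA, ?_⟩
  have h := EE_mono h0 h1 N (F := fun _ => F A) (G := F) (fun Λ hΛ => hmin Λ (mem_powerset.2 hΛ))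
  rwa [EE_const] at h

theorem EE_sum {ι : Type*} (p : ℝ) (N : ℕ) (s : Finset ι) (F : ι → Finset ℕ → ℝ) :
    EE p N (fun Λ => ∑ i ∈ s, F i Λ) = ∑ i ∈ s, EE p N (F i) := by
  classical
  induction s using Finset.induction_on with
  | empty => simp [EE_const]
  | insert i s hi ih =>
    simp only [sum_insert hi]
    rw [EE_add, ih]

theorem grad_nonneg {N : ℕ} {F : Finset ℕ → ℝ} (hF : Monotone F) (A : Finset ℕ) :
    0 ≤ grad N F A := by
  unfold grad
  exact sum_nonneg (fun x _ => sub_nonneg.2 (hF (subset_insert x A)))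

theorem grad_sum {ι : Type*} (N : ℕ) (s : Finset ι) (F : ι → Finset ℕ → ℝ) (A : Finset ℕ) :
    grad N (fun Λ => ∑ i ∈ s, F i Λ) A = ∑ i ∈ s, grad N (F i) A := by
  unfold grad
  rw [sum_comm]
  apply sum_congr rfl
  intro x _
  rw [sum_sub_distrib]

/-- mean value theorem -/
theorem exists_small_grad {N : ℕ} {F : Finset ℕ → ℝ} (hF : Monotone F) (h0 : 0 ≤ F ∅) {q : ℝ}
    (hq : 0 < q) (hq1 : q ≤ 1) :
    ∃ t, 0 < t ∧ t < q ∧ EE t N (grad N F) ≤ EE q N F / q := by
  obtain ⟨t, ht, hD⟩ := exists_hasDerivAt_eq_slope (fun t => EE t N F) (fun t => DD t N F) hq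
    (fun t _ => (hasDerivAt_EE t N F).continuousAt.continuousWithinAt)
    (fun t _ => hasDerivAt_EE t N F)
  refine ⟨t, ht.1, ht.2, ?_⟩
  have h1 := DD_eq t N F
  have h2 : 0 ≤ EE t N (grad N F) :=
    EE_nonneg ht.1.le (ht.2.le.trans hq1) N (fun A _ => grad_nonneg hF A)
  have h3 : 0 < 1 - t := by linarith [ht.2]
  have h4 : 0 ≤ DD t N F := by
    rw [← h1] at h2
    exact nonneg_of_mul_nonneg_right h2 h3
  have h5 : EE t N (grad N F) ≤ DD t N F := by
    rw [← h1]
    have : 0 ≤ t * DD t N F := mul_nonneg ht.1.le h4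
    linarith
  refine h5.trans ?_
  rw [hD, sub_zero, EE_p_zero]
  apply div_le_div_of_nonneg_right _ hq.le
  linarith

/-! ### irregular sets -/

/-- some initial segment contains too many elements -/
def irr (θ M : ℝ) (N : ℕ) (A : Finset ℕ) : Prop := ∃ L ≤ N, M + θ * L < (A ∩ range L).card

open Classical in
/-- indicator of `irr` -/
noncomputable def irrI (θ M : ℝ) (N : ℕ) (A : Finset ℕ) : ℝ := if irr θ M N A then 1 else 0

theorem irrI_nonneg (θ M : ℝ) (N : ℕ) (A : Finset ℕ) : 0 ≤ irrI θ M N A := by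
  unfold irrI
  split_ifs <;> norm_num

open Classical in
/-- potential -/
noncomputable def pot2 (θ M lam : ℝ) (N : ℕ) (A : Finset ℕ) : ℝ :=
  if irr θ M N A then 1 else Real.exp (lam * ((A ∩ range N).card - θ * N - M))

theorem pot2_step {θ M lam t : ℝ} (hlam : 0 ≤ lam) (h0 : 0 ≤ t) (h1 : t ≤ 1)
    (hkey : t * (Real.exp lam - 1) ≤ lam * θ) (N : ℕ) {A : Finset ℕ} (hA : A ⊆ range N) :
    (1 - t) * pot2 θ M lam (N + 1) A + t * pot2 θ M lam (N + 1) (insert N A) ≤
      pot2 θ M lam N A := by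
  have hN : N ∉ A := fun h => absurd (mem_range.1 (hA h)) (lt_irrefl N)
  have c0 : (A ∩ range N).card = A.card := by rw [inter_range_of_sub hA]
  have c1 : (A ∩ range (N + 1)).card = A.card := by rw [inter_range_of_sub (range_sub hA)]
  have c2 : (insert N A ∩ range (N + 1)).card = A.card + 1 := by
    rw [inter_range_of_sub (insert_sub hA), card_insert_of_notMem hN]
  by_cases hh : irr θ M N A
  · have g1 : irr θ M (N + 1) A := by
      obtain ⟨L, hL, h2⟩ := hh
      exact ⟨L, by omega, h2⟩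
    have g2 : irr θ M (N + 1) (insert N A) := by
      obtain ⟨L, hL, h2⟩ := hh
      exact ⟨L, by omega, by rwa [insert_inter_range hL]⟩
    rw [pot2, pot2, pot2, if_pos hh, if_pos g1, if_pos g2]
    linarith
  · have e1 : pot2 θ M lam (N + 1) A ≤ Real.exp (lam * ((A.card : ℝ) - θ * (N + 1) - M)) := by
      rw [pot2, c1]
      split_ifs with g1
      · obtain ⟨L, hL, h2⟩ := g1
        rcases Nat.lt_or_ge N L with h3 | h3
        · have hL' : L = N + 1 := by omega
          rw [hL', c1] at h2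
          push_cast at h2
          exact Real.one_le_exp (mul_nonneg hlam (by linarith))
        · exact absurd ⟨L, h3, h2⟩ hh
      · push_cast
        exact le_rfl
    have e2 : pot2 θ M lam (N + 1) (insert N A) ≤
        Real.exp (lam * ((A.card : ℝ) + 1 - θ * (N + 1) - M)) := by
      rw [pot2, c2]
      split_ifs with g2
      · obtain ⟨L, hL, h2⟩ := g2
        rcases Nat.lt_or_ge N L with h3 | h3
        · have hL' : L = N + 1 := by omega
          rw [hL', c2] at h2
          push_cast at h2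
          exact Real.one_le_exp (mul_nonneg hlam (by linarith))
        · rw [insert_inter_range h3] at h2
          exact absurd ⟨L, h3, h2⟩ hh
      · push_cast
        exact le_rfl
    have e0 : pot2 θ M lam N A = Real.exp (lam * ((A.card : ℝ) - θ * N - M)) := by
      rw [pot2, if_neg hh, c0]
    have e3 : Real.exp (lam * ((A.card : ℝ) - θ * (N + 1) - M)) =
        Real.exp (lam * ((A.card : ℝ) - θ * N - M)) * Real.exp (-(lam * θ)) := by
      rw [← Real.exp_add]
      congr 1
      ring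
    have e4 : Real.exp (lam * ((A.card : ℝ) + 1 - θ * (N + 1) - M)) =
        Real.exp (lam * ((A.card : ℝ) - θ * N - M)) * (Real.exp (-(lam * θ)) * Real.exp lam) := by
      rw [← Real.exp_add, ← Real.exp_add]
      congr 1
      ring
    have e5 : (1 - t) * Real.exp (-(lam * θ)) + t * (Real.exp (-(lam * θ)) * Real.exp lam) ≤ 1 := by
      have h2 : (1 - t) * Real.exp (-(lam * θ)) + t * (Real.exp (-(lam * θ)) * Real.exp lam) =
          Real.exp (-(lam * θ)) * (t * (Real.exp lam - 1) + 1) := by ring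
      rw [h2]
      have h3 : t * (Real.exp lam - 1) + 1 ≤ Real.exp (lam * θ) :=
        (Real.add_one_le_exp _).trans (Real.exp_le_exp.2 hkey)
      calc Real.exp (-(lam * θ)) * (t * (Real.exp lam - 1) + 1) ≤
          Real.exp (-(lam * θ)) * Real.exp (lam * θ) :=
            mul_le_mul_of_nonneg_left h3 (Real.exp_pos _).le
        _ = 1 := by rw [← Real.exp_add]; simp
    rw [e0]
    have e6 := mul_le_mul_of_nonneg_left e1 (show 0 ≤ 1 - t by linarith)
    have e7 := mul_le_mul_of_nonneg_left e2 h0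
    rw [e3] at e6
    rw [e4] at e7
    have e8 := mul_le_mul_of_nonneg_left e5
      (Real.exp_pos (lam * ((A.card : ℝ) - θ * N - M))).le
    linarith

theorem EE_irrI {θ M lam t : ℝ} (hlam : 0 ≤ lam) (h0 : 0 ≤ t) (h1 : t ≤ 1)
    (hkey : t * (Real.exp lam - 1) ≤ lam * θ) (hM : 0 ≤ M) (N : ℕ) :
    EE t N (irrI θ M N) ≤ Real.exp (-(lam * M)) := by
  have hpot : EE t N (pot2 θ M lam N) ≤ Real.exp (-(lam * M)) := by
    induction N with
    | zero =>
      rw [EE_zero, pot2]
      split_ifs with hh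
      · obtain ⟨L, hL, h2⟩ := hh
        have hL0 : L = 0 := by omega
        rw [hL0] at h2
        simp at h2
        linarith
      · apply Real.exp_le_exp.2
        simp
    | succ N ih =>
      refine le_trans ?_ ih
      rw [EE_succ, ← EE_smul, ← EE_smul, ← EE_add]
      exact EE_mono h0 h1 N (fun A hA => pot2_step hlam h0 h1 hkey N hA)
  refine le_trans (EE_mono h0 h1 N ?_) hpot
  intro A _
  unfold irrI pot2
  split_ifs
  · exact le_rfl
  · exact (Real.exp_pos _).le

/-- `A` is regular: at most `M + θ a` elements below `a` -/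
def reg (θ M : ℝ) (A : Finset ℕ) : Prop := ∀ a : ℕ, ((A ∩ range a).card : ℝ) ≤ M + θ * a

theorem reg_of_not_irr {θ M : ℝ} (hθ : 0 ≤ θ) {N : ℕ} {A : Finset ℕ} (hA : A ⊆ range N)
    (h : ¬ irr θ M N A) : reg θ M A := by
  intro a
  rcases le_or_gt a N with ha | ha
  · by_contra hcon
    push Not at hcon
    exact h ⟨a, ha, hcon⟩
  · have h1 : A ∩ range a = A ∩ range N := by
      rw [inter_range_of_sub hA, inter_eq_left]
      exact hA.trans (range_subset_range.2 ha.le)
    rw [h1]
    have h2 : ((A ∩ range N).card : ℝ) ≤ M + θ * N := by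
      by_contra hcon
      push Not at hcon
      exact h ⟨N, le_rfl, hcon⟩
    have h3 : (N : ℝ) ≤ a := by exact_mod_cast ha.le
    have h4 := mul_le_mul_of_nonneg_left h3 hθ
    linarith

theorem cut_union {θ M θ' M' : ℝ} {A A' : Finset ℕ} (h : reg θ M A) (h' : reg θ' M' A') (a : ℕ) :
    (1 - (θ + θ')) * a - (M + M') ≤ cut (A ∪ A') a := by
  have h1 : (cut (A ∪ A') a : ℝ) = a - ((A ∪ A') ∩ range a).card := by
    unfold cut
    have h2 : (range a \ (A ∪ A')).card + (range a ∩ (A ∪ A')).card = (range a).card :=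
      card_sdiff_add_card_inter _ _
    rw [inter_comm, card_range] at h2
    have h3 : ((range a \ (A ∪ A')).card : ℝ) + ((A ∪ A') ∩ range a).card = a := by
      exact_mod_cast h2
    linarith
  have h2 : (((A ∪ A') ∩ range a).card : ℝ) ≤ (A ∩ range a).card + (A' ∩ range a).card := by
    rw [union_inter_distrib_right]
    exact_mod_cast card_union_le _ _
  have h3 := h a
  have h4 := h' a
  rw [h1]
  linarith

theorem cut_reg {θ M : ℝ} {A : Finset ℕ} (h : reg θ M A) (a : ℕ) :
    (1 - θ) * a - M ≤ cut A a := by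
  have h' : reg 0 0 (∅ : Finset ℕ) := by
    intro a
    simp
  have := cut_union h h' a
  rw [union_empty, add_zero, add_zero] at this
  exact this

theorem reg_mono {θ M : ℝ} {A B : Finset ℕ} (h : reg θ M A) (hBA : B ⊆ A) : reg θ M B := by
  intro a
  refine le_trans ?_ (h a)
  exact_mod_cast card_le_card (inter_subset_inter hBA (Subset.refl _))

/-! ### masses -/

variable {V : Type*} {m : V → V → ℕ} {T : Finset V} {Δ N : ℕ}

theorem sum_cut (S : Finset V) (u : V) (hN : ∀ u y, m u y ≤ N) (Ω : Finset ℕ) :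
    ∑ x ∈ range N \ Ω, ((S.filter (fun y => x < m u y)).card : ℝ) =
      ∑ y ∈ S, (cut Ω (m u y) : ℝ) := by
  classical
  have h1 : ∀ x, ((S.filter (fun y => x < m u y)).card : ℝ) =
      ∑ y ∈ S, if x < m u y then (1 : ℝ) else 0 := by
    intro x
    rw [sum_boole]
  rw [sum_congr rfl (fun x _ => h1 x), sum_comm]
  apply sum_congr rfl
  intro y _
  rw [sum_boole]
  congr 1
  unfold cut
  congr 1
  ext x
  simp only [mem_filter, mem_sdiff, mem_range]
  have := hN u y
  constructor
  · rintro ⟨⟨h1, h2⟩, h3⟩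
    exact ⟨h3, h2⟩
  · rintro ⟨h1, h2⟩
    exact ⟨⟨by omega, h2⟩, h1⟩

theorem mass_cut (h : Cfg m T Δ N) {S : Finset V} (hS : S ⊆ T) (u : V) {Ω : Finset ℕ} {p M : ℝ}
    (hM : 0 ≤ M) (hreg : ∀ a : ℕ, (1 - p) * a - M ≤ cut Ω a) :
    (1 - p) * ∑ y ∈ S, (m u y : ℝ) - M * Δ ≤
      ∑ x ∈ range N \ Ω, ((S.filter (fun y => x < m u y)).card : ℝ) := by
  rw [sum_cut S u h.le Ω]
  have h1 : ∑ y ∈ S, (cut Ω (m u y) : ℝ) =
      ∑ y ∈ S.filter (fun y => 0 < m u y), (cut Ω (m u y) : ℝ) := by
    symm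
    apply sum_subset (filter_subset _ _)
    intro y hy hy'
    have : m u y = 0 := by
      by_contra h2
      exact hy' (mem_filter.2 ⟨hy, Nat.pos_of_ne_zero h2⟩)
    rw [this]
    simp [cut]
  have h2 : ∑ y ∈ S, (m u y : ℝ) = ∑ y ∈ S.filter (fun y => 0 < m u y), (m u y : ℝ) := by
    symm
    apply sum_subset (filter_subset _ _)
    intro y hy hy'
    have : m u y = 0 := by
      by_contra h2
      exact hy' (mem_filter.2 ⟨hy, Nat.pos_of_ne_zero h2⟩)
    rw [this]
    simp
  rw [h1, h2, mul_sum]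
  have h3 : ∑ y ∈ S.filter (fun y => 0 < m u y), ((1 - p) * (m u y : ℝ) - M) ≤
      ∑ y ∈ S.filter (fun y => 0 < m u y), (cut Ω (m u y) : ℝ) :=
    sum_le_sum (fun y _ => hreg _)
  rw [sum_sub_distrib, sum_const, nsmul_eq_mul] at h3
  have h4 : ((S.filter (fun y => 0 < m u y)).card : ℝ) ≤ Δ := by
    exact_mod_cast (card_le_card (filter_subset_filter _ hS)).trans (h.deg u)
  have h5 := mul_le_mul_of_nonneg_right h4 hM
  linarith

open Classical in
theorem growth_one {A : Finset ℕ} {v u : V} (hu : u ∈ RR m T A v) {x : ℕ} (hx : x ∉ A) :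
    (RR m T A v).card + ((T \ RR m T A v).filter (fun y => x < m u y)).card ≤
      (RR m T (insert x A) v).card := by
  rw [← card_union_of_disjoint]
  · apply card_le_card
    intro y hy
    rcases mem_union.1 hy with h2 | h2
    · exact RR_mono (subset_insert x A) v h2
    · rw [mem_filter, mem_sdiff] at h2
      rw [mem_RR]
      exact ⟨h2.1.1, (mem_RR.1 hu).2.tail hx h2.1.1 h2.2⟩
  · rw [disjoint_left]
    intro y hy hy'
    rw [mem_filter, mem_sdiff] at hy'
    exact hy'.1.2 hy

end Seym65
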