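import Pool.Agent.Seym65.Spread

/-!
# The asymptotic bound for sparse digraphs
-/

namespace Seym65

open Finset

variable {V : Type*} {m : V → V → ℕ} {T : Finset V} {Δ N : ℕ}

/-- double counting: out-sets and in-sets -/
theorem sum_RR_eq_sum_ZZ (A : Finset ℕ) :
    ∑ v ∈ T, ((RR m T A v).card : ℝ) = ∑ v ∈ T, ((ZZ m T A v).card : ℝ) := by
  classical
  have h1 : ∀ v, ((RR m T A v).card : ℝ) = ∑ y ∈ T, if Reach m T A v y then (1 : ℝ) else 0 := by
    intro v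
    rw [sum_boole]
    rfl
  have h2 : ∀ v, ((ZZ m T A v).card : ℝ) = ∑ y ∈ T, if Reach m T A y v then (1 : ℝ) else 0 := by
    intro v
    rw [sum_boole]
    rfl
  rw [sum_congr rfl (fun v _ => h1 v), sum_congr rfl (fun v _ => h2 v), sum_comm]

/-- the set reaching a good vertex is small in a minimal counterexample -/
theorem ZZ_small (h : Cfg m T Δ N) (hΔ : 1 ≤ Δ) {ε C : ℝ} (hε : 0 < ε) (hC : 0 ≤ C)
    (ih : ∀ T' ⊂ T, T'.Nonempty → ∀ m' : V → V → ℕ, Cfg m' T' Δ N →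
      ∃ u ∈ T', ∑ y ∈ T', (m' u y : ℝ) < (1 + ε) * T'.card + C * Δ)
    (hD : ∀ u ∈ T, (1 + ε) * T.card + C * Δ ≤ ∑ y ∈ T, (m u y : ℝ))
    {v0 : V} (hv : v0 ∈ T) {A Λ' : Finset ℕ} {θ M0 θ' M' : ℝ} (hA : reg θ M0 A) (hΛ : reg θ' M' Λ')
    (hθ : 0 ≤ θ) (hθ' : 0 ≤ θ') (hp1 : θ + θ' ≤ 1) (hM0 : 0 ≤ M0) (hM' : 0 ≤ M')
    (hgood : Δ + 1 ≤ (RR m T Λ' v0).card) :
    ((ZZ m T (A \ Λ') v0).card : ℝ) ≤ (θ + θ') * (T.card + C * Δ) + (M0 + M') * Δ := by
  classical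
  have hd : Disjoint (A \ Λ') Λ' := sdiff_disjoint
  have hreg : ∀ a : ℕ, (1 - (θ + θ')) * a - (M0 + M') ≤ cut ((A \ Λ') ∪ Λ') a :=
    cut_union (reg_mono hA sdiff_subset) hΛ
  obtain ⟨m', hcfg, hmass⟩ := deletion h hv hd hgood (by linarith) hreg
  set Z := ZZ m T (A \ Λ') v0 with hZ
  have hZT : Z ⊆ T := fun z hz => (mem_ZZ.1 hz).1
  have hv0Z : v0 ∈ Z := mem_ZZ.2 ⟨hv, Reach.refl _ _⟩
  have hss : T \ Z ⊂ T := by
    refine ⟨sdiff_subset, fun hsub => ?_⟩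
    exact (mem_sdiff.1 (hsub hv)).2 hv0Z
  have hne : (T \ Z).Nonempty := by
    have h1 : 0 < ((RR m T Λ' v0).erase v0).card := by
      rw [card_erase_of_mem (self_mem_RR hv)]
      omega
    obtain ⟨b, hb⟩ := card_pos.1 h1
    have h2 := mem_RR.1 (mem_of_mem_erase hb)
    refine ⟨b, mem_sdiff.2 ⟨h2.1, fun h3 => ?_⟩⟩
    exact h.noc.not_both hd (ne_of_mem_erase hb) (mem_ZZ.1 h3).2 h2.2
  obtain ⟨u, hu, hlt⟩ := ih (T \ Z) hss hne m' hcfg
  have h1 := hmass u hu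
  have h2 := hD u (mem_sdiff.1 hu).1
  have h3 : ((T \ Z).card : ℝ) = T.card - Z.card := by
    rw [card_sdiff_of_subset hZT, Nat.cast_sub (card_le_card hZT)]
  rw [h3] at hlt
  have h4 := mul_le_mul_of_nonneg_left h2 (show 0 ≤ 1 - (θ + θ') by linarith)
  have hCΔ : 0 ≤ C * Δ := mul_nonneg hC (Nat.cast_nonneg _)
  have hp0 : 0 ≤ θ + θ' := by linarith
  have h5 : (1 + ε) * (Z.card : ℝ) < (θ + θ') * ((1 + ε) * T.card + C * Δ) + (M0 + M') * Δ := by
    linarith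
  have h6 : (θ + θ') * ((1 + ε) * T.card + C * Δ) + (M0 + M') * Δ ≤
      (1 + ε) * ((θ + θ') * (T.card + C * Δ) + (M0 + M') * Δ) := by
    have h7 : 0 ≤ ε * ((θ + θ') * (C * Δ) + (M0 + M') * Δ) := by
      have : (0 : ℝ) ≤ Δ := Nat.cast_nonneg _
      positivity
    nlinarith [h7]
  have h7 : (1 + ε) * (Z.card : ℝ) < (1 + ε) * ((θ + θ') * (T.card + C * Δ) + (M0 + M') * Δ) :=
    lt_of_lt_of_le h5 h6
  exact (lt_of_mul_lt_mul_left h7 (by linarith)).le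

/-- total size of the out-sets with labels outside `Λ'` -/
noncomputable def FF (m : V → V → ℕ) (T : Finset V) (Λ' : Finset ℕ) (v : V) (A : Finset ℕ) : ℝ :=
  ((RR m T (A \ Λ') v).card : ℝ)

theorem FF_monotone (Λ' : Finset ℕ) (v : V) : Monotone (FF m T Λ' v) := by
  intro A B hAB
  unfold FF
  exact_mod_cast card_le_card (RR_mono (sdiff_subset_sdiff hAB (Subset.refl _)) v)

theorem FF_nonneg (Λ' : Finset ℕ) (v : V) (A : Finset ℕ) : 0 ≤ FF m T Λ' v A := Nat.cast_nonneg _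

open Classical in
theorem grad_FF {Λ' : Finset ℕ} {v u : V} {A : Finset ℕ} (hu : u ∈ RR m T (A \ Λ') v) :
    ∑ x ∈ range N \ (A ∪ Λ'), (((T \ RR m T (A \ Λ') v).filter (fun y => x < m u y)).card : ℝ) ≤
      grad N (FF m T Λ' v) A := by
  classical
  unfold grad
  have hsub : range N \ (A ∪ Λ') ⊆ range N \ A := sdiff_subset_sdiff (Subset.refl _) subset_union_left
  refine le_trans ?_ (sum_le_sum_of_subset_of_nonneg hsub (fun x _ _ =>
    sub_nonneg.2 (FF_monotone Λ' v (subset_insert x A))))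
  apply sum_le_sum
  intro x hx
  have hx2 := (mem_sdiff.1 hx).2
  rw [mem_union, not_or] at hx2
  have h1 : insert x A \ Λ' = insert x (A \ Λ') := insert_sdiff_of_notMem _ hx2.2
  have h2 := growth_one (m := m) (T := T) hu (x := x) (fun h => hx2.1 (mem_sdiff.1 h).1)
  unfold FF
  rw [h1, le_sub_iff_add_le, add_comm]
  exact_mod_cast h2

theorem exists_M {lam δ : ℝ} (hlam : 0 < lam) (hδ : 0 < δ) :
    ∃ M : ℝ, 0 ≤ M ∧ Real.exp (-(lam * M)) ≤ δ := by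
  refine ⟨max 0 (-(Real.log δ) / lam), le_max_left _ _, ?_⟩
  have h1 : -(Real.log δ) / lam ≤ max 0 (-(Real.log δ) / lam) := le_max_right _ _
  rw [div_le_iff₀ hlam] at h1
  calc Real.exp (-(lam * max 0 (-(Real.log δ) / lam))) ≤ Real.exp (Real.log δ) := by
        apply Real.exp_le_exp.2
        linarith
    _ = δ := Real.exp_log hδ

/-- probability of irregularity, slope `(1 + η) t1` -/
theorem EE_irr_eta {η t1 t M : ℝ} (hη : 0 < η) (ht1 : 0 ≤ t1) (h0 : 0 ≤ t) (ht : t ≤ t1) (h1 : t ≤ 1)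
    (hM : 0 ≤ M) (N : ℕ) :
    EE t N (irrI ((1 + η) * t1) M N) ≤ Real.exp (-(Real.log (1 + η) * M)) := by
  have hlog : 0 ≤ Real.log (1 + η) := Real.log_nonneg (by linarith)
  apply EE_irrI hlog h0 h1 _ hM
  rw [Real.exp_log (by linarith)]
  have h2 : 1 - (1 + η)⁻¹ ≤ Real.log (1 + η) := Real.one_sub_inv_le_log_of_pos (by linarith)
  have h3 : η ≤ Real.log (1 + η) * (1 + η) := by
    have h4 := mul_le_mul_of_nonneg_right h2 (show 0 ≤ 1 + η by linarith)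
    have h5 : (1 - (1 + η)⁻¹) * (1 + η) = η := by
      have : (1 + η) ≠ 0 := by linarith
      field_simp
      ring
    linarith
  calc t * (1 + η - 1) = t * η := by ring
    _ ≤ t1 * (Real.log (1 + η) * (1 + η)) := mul_le_mul ht h3 hη.le ht1
    _ = Real.log (1 + η) * ((1 + η) * t1) := by ring

/-! ### arithmetic -/

theorem ar_cd {n c ε : ℝ} (hn : 0 < n) (hε : 0 < ε) (h : (1 + ε) * n + c < 3 * n) : c < 2 * n := by
  have : 0 < ε * n := by positivity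
  linarith

theorem ar_M {C Δ n M e : ℝ} (hΔ : 0 ≤ Δ) (h1 : 2 * M ≤ C * e) (he : 0 < e) (h2 : C * Δ < 2 * n) :
    M * Δ ≤ e * n := by
  have h3 := mul_le_mul_of_nonneg_right h1 hΔ
  have h4 := mul_lt_mul_of_pos_left h2 he
  have h5 : C * e * Δ = e * (C * Δ) := by ring
  linarith

theorem ar_small {C Δ n q e : ℝ} (hΔ : 1 ≤ Δ) (hq : 0 < q) (he : 0 < e)
    (h1 : 48 ≤ C * (q * e)) (h2 : C * Δ < 2 * n) :
    2 * (2 * Δ + 1) ≤ e / 4 * (q * n) := by
  have h3 := mul_le_mul_of_nonneg_right h1 (show 0 ≤ Δ by linarith)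
  have h4 := mul_lt_mul_of_pos_left h2 (show 0 < q * e by positivity)
  have h5 : C * (q * e) * Δ = q * e * (C * Δ) := by ring
  have h6 : e / 4 * (q * n) = q * e * (2 * n) / 8 := by ring
  rw [h6]
  linarith

theorem ar_Q1 {η t1 n c M p : ℝ} (hη : 0 < η) (ht : 0 < t1) (hn : 0 < n) (hp : p = (1 + 2 * η) * t1)
    (hM : M ≤ η * t1 * n) :
    p * (n + c) + M + η * t1 * (5 / 8) * n ≤ ((1 + 2 * η) * (n + c) + 2 * η * n) * t1 := by
  rw [hp]
  have : 0 < η * t1 * n := by positivity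
  have e1 : ((1 + 2 * η) * (n + c) + 2 * η * n) * t1 =
    (1 + 2 * η) * t1 * (n + c) + 2 * (η * t1 * n) := by ring
  rw [e1]
  linarith

theorem ar_Q2 {η t1 n c M p : ℝ} (hη : 0 < η) (hη1 : η ≤ 1 / 48) (ht : 0 < t1) (hn : 0 < n)
    (hp : p = (1 + 2 * η) * t1) (hM : M ≤ η * t1 * n) (hc : c ≤ 2 * n) :
    p * (n + c) + M + η * t1 * (5 / 8) * n ≤ 5 * t1 * n := by
  have h1 : p * (n + c) ≤ (1 + 2 * η) * t1 * (3 * n) := by
    rw [hp]
    exact mul_le_mul_of_nonneg_left (by linarith) (by positivity)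
  have h2 : 0 < t1 * n := by positivity
  have h3 : η * (t1 * n) ≤ 1 / 48 * (t1 * n) := mul_le_mul_of_nonneg_right hη1 h2.le
  have e1 : (1 + 2 * η) * t1 * (3 * n) = 3 * (t1 * n) + 6 * (η * (t1 * n)) := by ring
  have e2 : η * t1 * n = η * (t1 * n) := by ring
  have e3 : η * t1 * (5 / 8) * n = 5 / 8 * (η * (t1 * n)) := by ring
  have e4 : 5 * t1 * n = 5 * (t1 * n) := by ring
  rw [e2] at hM
  rw [e3, e4]
  rw [e1] at h1
  linarith

theorem ar_Y {η t1 n c a b : ℝ} (hη : 0 < η) (ht1 : t1 ≤ 1 / 360) (hn : 0 < n)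
    (ha : a ≤ (1 + 2 * η) * (n + c) + 2 * η * n) (hb : b ≤ η * n) :
    a + b + 10 * n * (η * t1 / 4) ≤ (1 + 2 * η) * (n + c) + 4 * η * n := by
  have h2 : 0 < η * n := by positivity
  have h3 : η * n * t1 ≤ η * n * (1 / 360) := mul_le_mul_of_nonneg_left ht1 h2.le
  have e1 : 10 * n * (η * t1 / 4) = 5 / 2 * (η * n * t1) := by ring
  rw [e1]
  linarith

theorem ar_Y2 {η n c : ℝ} (hη : 0 < η) (hη1 : η ≤ 1 / 48) (hn : 0 < n) (hc : c ≤ 2 * n) :
    (1 + 2 * η) * (n + c) + 4 * η * n ≤ 6 * n := by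
  have h1 : (1 + 2 * η) * (n + c) ≤ (1 + 2 * η) * (3 * n) :=
    mul_le_mul_of_nonneg_left (by linarith) (by positivity)
  have h3 : η * n ≤ 1 / 48 * n := mul_le_mul_of_nonneg_right hη1 hn.le
  have e1 : (1 + 2 * η) * (3 * n) = 3 * n + 6 * (η * n) := by ring
  have e2 : 4 * η * n = 4 * (η * n) := by ring
  rw [e2]
  linarith

theorem ar_final {ε η t1 n c p MD out : ℝ} (hε : 0 < ε) (hε1 : ε ≤ 1) (hη : η = ε / 48)
    (ht1 : 0 < t1) (ht1b : t1 ≤ 1 / 360 * η) (hn : 0 < n) (hc : c ≤ 2 * n)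
    (hp0 : 0 ≤ p) (hp1 : p ≤ 2 * t1) (hMD : MD ≤ η * t1 * n)
    (hout : (1 + ε) * n + c - ε / 4 * n ≤ out)
    (hg : (1 - p) * out - MD ≤ (1 + 2 * η) * (n + c) + 4 * η * n) : False := by
  have hη0 : 0 < η := by rw [hη]; positivity
  have hη1 : η ≤ 1 / 48 := by rw [hη]; linarith
  have hεn : 0 < ε * n := by positivity
  have hεn1 : ε * n ≤ 1 * n := mul_le_mul_of_nonneg_right hε1 hn.le
  have hηn : 0 < η * n := by positivity
  set X := (1 + ε) * n + c - ε / 4 * n with hX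
  have hX4 : X ≤ 4 * n := by
    rw [hX]
    have e1 : (1 + ε) * n = n + ε * n := by ring
    have e2 : ε / 4 * n = ε * n / 4 := by ring
    rw [e1, e2]
    linarith
  have hp1' : 0 ≤ 1 - p := by linarith
  have h1 := mul_le_mul_of_nonneg_left hout hp1'
  have h2 : p * X ≤ p * (4 * n) := mul_le_mul_of_nonneg_left hX4 hp0
  have h3 : p * (4 * n) ≤ 2 * t1 * (4 * n) := mul_le_mul_of_nonneg_right hp1 (by linarith)
  have h4 : t1 * n ≤ 1 / 360 * η * n := mul_le_mul_of_nonneg_right ht1b hn.le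
  have h5 : η * t1 * n ≤ η * n := by
    have h6 : t1 ≤ 1 := by linarith
    have h7 : η * n * t1 ≤ η * n * 1 := mul_le_mul_of_nonneg_left h6 hηn.le
    have e1 : η * t1 * n = η * n * t1 := by ring
    rw [e1]
    linarith
  have h6 : η * c ≤ η * (2 * n) := mul_le_mul_of_nonneg_left hc hη0.le
  have e1 : (1 - p) * X = X - p * X := by ring
  have e2 : (1 + 2 * η) * (n + c) + 4 * η * n = n + c + 6 * (η * n) + 2 * (η * c) := by ring
  have e3 : 2 * t1 * (4 * n) = 8 * (t1 * n) := by ring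
  have e4 : 1 / 360 * η * n = 1 / 360 * (η * n) := by ring
  have e5 : η * (2 * n) = 2 * (η * n) := by ring
  have e6 : X = n + ε * n + c - ε * n / 4 := by rw [hX]; ring
  have e7 : η * n = ε * n / 48 := by rw [hη]; ring
  rw [e1] at h1
  rw [e2] at hg
  rw [e3] at h3
  rw [e4] at h4
  rw [e5] at h6
  linarith

/-! ### the core -/

/-- parameters -/
structure Par (ε C η K1 t1 q M0 M' : ℝ) : Prop where
  hε : 0 < ε
  hε1 : ε ≤ 1
  hη : η = ε / 48
  hK1 : K1 = 72 / ε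
  ht1 : t1 = η / (5 * K1)
  hq : q = η * t1 / 2
  hM0 : 0 ≤ M0
  hM' : 0 ≤ M'
  hδ3 : Real.exp (-(Real.log (1 + η) * M0)) ≤ η * t1 / 4
  hδ' : Real.exp (-(Real.log (1 + 1) * M')) ≤ η * t1 / 16
  hC3 : 3 ≤ C
  hC1 : 48 / (q * (η * t1)) ≤ C
  hC2 : 2 * (M0 + M') / (η * t1) ≤ C

variable {ε C η K1 t1 q M0 M' : ℝ}

namespace Par

theorem hη0 (P : Par ε C η K1 t1 q M0 M') : 0 < η := by rw [P.hη]; have := P.hε; positivity
theorem hη1 (P : Par ε C η K1 t1 q M0 M') : η ≤ 1 / 48 := by rw [P.hη]; have := P.hε1; linarith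
theorem hK10 (P : Par ε C η K1 t1 q M0 M') : 0 < K1 := by rw [P.hK1]; have := P.hε; positivity
theorem hK1b (P : Par ε C η K1 t1 q M0 M') : 72 ≤ K1 := by
  rw [P.hK1, le_div_iff₀ P.hε]
  have := P.hε1
  linarith
theorem ht10 (P : Par ε C η K1 t1 q M0 M') : 0 < t1 := by
  rw [P.ht1]
  have h1 := P.hη0
  have h2 := P.hK10
  positivity
theorem hK1t1 (P : Par ε C η K1 t1 q M0 M') : 5 * K1 * t1 = η := by
  have h2 := P.hK10
  rw [P.ht1]
  field_simp
theorem ht1b (P : Par ε C η K1 t1 q M0 M') : t1 ≤ 1 / 360 * η := by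
  rw [← P.hK1t1]
  have h1 := mul_le_mul_of_nonneg_right P.hK1b P.ht10.le
  linarith
theorem ht1c (P : Par ε C η K1 t1 q M0 M') : t1 ≤ 1 / 360 := by
  have h1 := P.ht1b
  have h2 := P.hη1
  linarith
theorem hq0 (P : Par ε C η K1 t1 q M0 M') : 0 < q := by
  rw [P.hq]
  have h1 := P.hη0
  have h2 := P.ht10
  positivity
theorem hηt1 (P : Par ε C η K1 t1 q M0 M') : 0 < η * t1 := mul_pos P.hη0 P.ht10
theorem hηt1b (P : Par ε C η K1 t1 q M0 M') : η * t1 ≤ 1 / 48 := by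
  have h1 := mul_le_mul P.hη1 P.ht1c P.ht10.le (by norm_num)
  linarith
theorem hq8 (P : Par ε C η K1 t1 q M0 M') : q ≤ 1 / 8 := by
  rw [P.hq]
  have := P.hηt1b
  linarith
theorem hCpos (P : Par ε C η K1 t1 q M0 M') : 0 < C := by
  have := P.hC3
  linarith
theorem hpp (P : Par ε C η K1 t1 q M0 M') : (1 + η) * t1 + 2 * q = (1 + 2 * η) * t1 := by
  rw [P.hq]; ring
theorem hpp1 (P : Par ε C η K1 t1 q M0 M') : (1 + η) * t1 + 2 * q ≤ 2 * t1 := by
  rw [P.hpp]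
  have h1 : η * t1 ≤ 1 / 48 * t1 := mul_le_mul_of_nonneg_right P.hη1 P.ht10.le
  have h2 := P.ht10
  have e1 : (1 + 2 * η) * t1 = t1 + 2 * (η * t1) := by ring
  rw [e1]
  linarith
theorem hθ0 (P : Par ε C η K1 t1 q M0 M') : 0 ≤ (1 + η) * t1 := by
  have h1 := P.hη0
  have h2 := P.ht10
  positivity

end Par

/-- the hypotheses on a minimal counterexample -/
structure Cex (m : V → V → ℕ) (T : Finset V) (Δ N : ℕ) (ε C : ℝ) : Prop where
  cfg : Cfg m T Δ N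
  ne : T.Nonempty
  hΔ : 1 ≤ Δ
  ih : ∀ T' ⊂ T, T'.Nonempty → ∀ m' : V → V → ℕ, Cfg m' T' Δ N →
      ∃ u ∈ T', ∑ y ∈ T', (m' u y : ℝ) < (1 + ε) * T'.card + C * Δ
  hD : ∀ u ∈ T, (1 + ε) * T.card + C * Δ ≤ ∑ y ∈ T, (m u y : ℝ)

namespace Cex

theorem hn0 (X : Cex m T Δ N ε C) : (0 : ℝ) < T.card := by exact_mod_cast card_pos.2 X.ne

theorem hΔ1 (X : Cex m T Δ N ε C) : (1 : ℝ) ≤ Δ := by exact_mod_cast X.hΔ

theorem hCΔ2 (X : Cex m T Δ N ε C) (hε : 0 < ε) : C * Δ < 2 * T.card := by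
  obtain ⟨u, hu, hu3⟩ := three X.cfg.noClosed X.cfg.le T X.ne
  have h1 := X.hD u hu
  have h2 : ((∑ y ∈ T, m u y : ℕ) : ℝ) < ((3 * T.card : ℕ) : ℝ) := by exact_mod_cast hu3
  push_cast at h2
  exact ar_cd X.hn0 hε (lt_of_le_of_lt h1 h2)

theorem hMΔ (X : Cex m T Δ N ε C) (P : Par ε C η K1 t1 q M0 M') :
    (M0 + M') * Δ ≤ η * t1 * T.card := by
  have h := P.hC2
  rw [div_le_iff₀ P.hηt1] at h
  exact ar_M (by linarith [X.hΔ1]) h P.hηt1 (X.hCΔ2 P.hε)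

theorem hM'Δ (X : Cex m T Δ N ε C) (P : Par ε C η K1 t1 q M0 M') : M' * Δ ≤ (T.card : ℝ) / 4 := by
  have h1 : M' * Δ ≤ (M0 + M') * Δ :=
    mul_le_mul_of_nonneg_right (by linarith [P.hM0]) (by linarith [X.hΔ1])
  have h2 := X.hMΔ P
  have h3 : η * t1 * T.card ≤ 1 / 48 * T.card := mul_le_mul_of_nonneg_right P.hηt1b X.hn0.le
  have h4 := X.hn0
  linarith

theorem irrQ (P : Par ε C η K1 t1 q M0 M') (N : ℕ) (t : ℝ) (h0 : 0 ≤ t) (htq : t ≤ q) :
    EE t N (irrI (2 * q) M' N) ≤ η * t1 / 16 := by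
  have h1 := EE_irr_eta (η := 1) (t1 := q) one_pos P.hq0.le h0 htq (by linarith [P.hq8]) P.hM' N
  rw [show (1 + 1 : ℝ) * q = 2 * q by ring] at h1
  exact h1.trans P.hδ'

theorem irrA (P : Par ε C η K1 t1 q M0 M') (N : ℕ) (t : ℝ) (h0 : 0 ≤ t) (ht : t ≤ t1) :
    EE t N (irrI ((1 + η) * t1) M0 N) ≤ η * t1 / 4 :=
  (EE_irr_eta P.hη0 P.ht10.le h0 ht (by linarith [P.ht1c]) P.hM0 N).trans P.hδ3

/-- the sparse set -/
theorem spread (X : Cex m T Δ N ε C) (P : Par ε C η K1 t1 q M0 M') :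
    ∃ Λ' ⊆ range N, reg (2 * q) M' Λ' ∧ ∑ v ∈ T, bI m T Δ v Λ' ≤ η * t1 * (3 / 8) * T.card := by
  have hn0 := X.hn0
  have hD3 : ∀ u ∈ T, (T.card : ℝ) + 3 * Δ ≤ ∑ y ∈ T, (m u y : ℝ) := by
    intro u hu
    have h1 := X.hD u hu
    have h2 : 3 * (Δ : ℝ) ≤ C * Δ := mul_le_mul_of_nonneg_right P.hC3 (by linarith [X.hΔ1])
    have h3 : 0 < ε * T.card := mul_pos P.hε hn0
    have e1 : (1 + ε) * (T.card : ℝ) = T.card + ε * T.card := by ring
    rw [e1] at h1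
    linarith
  have hδ2 : 2 * (2 * (Δ : ℝ) + 1) / (q * T.card) + 2 * (η * t1 / 16) ≤ η * t1 * (3 / 8) := by
    have h1 : 2 * (2 * (Δ : ℝ) + 1) / (q * T.card) ≤ η * t1 / 4 := by
      rw [div_le_iff₀ (mul_pos P.hq0 hn0)]
      have hC1 := P.hC1
      rw [div_le_iff₀ (mul_pos P.hq0 P.hηt1)] at hC1
      exact ar_small X.hΔ1 P.hq0 P.hηt1 hC1 (X.hCΔ2 P.hε)
    linarith
  have hηt1b := P.hηt1b
  obtain ⟨Λ', hΛsub, hΛreg, hbad⟩ := exists_spread X.cfg X.ne P.hq0 P.hq8 P.hM' hD3 (X.hM'Δ P)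
    (irrQ P N) (by linarith)
  exact ⟨Λ', hΛsub, hΛreg, hbad.trans (mul_le_mul_of_nonneg_right hδ2 hn0.le)⟩

/-- bound for the total size of the reached sets -/
theorem F_le (X : Cex m T Δ N ε C) (P : Par ε C η K1 t1 q M0 M') {Λ' : Finset ℕ}
    (hΛreg : reg (2 * q) M' Λ') (hbad : ∑ v ∈ T, bI m T Δ v Λ' ≤ η * t1 * (3 / 8) * T.card)
    {A : Finset ℕ} (hA : A ⊆ range N) :
    ∑ v ∈ T, FF m T Λ' v A ≤ ((T.card : ℝ) * (((1 + η) * t1 + 2 * q) * (T.card + C * Δ) +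
      (M0 + M') * Δ) + T.card * (η * t1 * (3 / 8) * T.card)) +
        T.card * T.card * irrI ((1 + η) * t1) M0 N A := by
  classical
  set n : ℝ := (T.card : ℝ) with hn
  have hn0 : 0 < n := X.hn0
  set Bd : ℝ := ((1 + η) * t1 + 2 * q) * (n + C * Δ) + (M0 + M') * Δ with hBd
  have hq0 := P.hq0
  have hθ0 := P.hθ0
  have hM0 := P.hM0
  have hM' := P.hM'
  have hCpos := P.hCpos
  have hΔ1 := X.hΔ1
  have hηt1 := P.hηt1
  have hBd0 : 0 ≤ Bd := by rw [hBd]; positivity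
  have hall : ∑ v ∈ T, FF m T Λ' v A ≤ n * n := by
    have h1 : ∑ v ∈ T, FF m T Λ' v A ≤ ∑ v ∈ T, n := by
      apply sum_le_sum
      intro v _
      unfold FF
      rw [hn]
      exact_mod_cast card_le_card (RR_sub (m := m) (T := T) (Λ := A \ Λ') (v := v))
    rw [sum_const, nsmul_eq_mul] at h1
    exact h1
  by_cases hirr : irr ((1 + η) * t1) M0 N A
  · have h1 : irrI ((1 + η) * t1) M0 N A = 1 := by unfold irrI; rw [if_pos hirr]
    rw [h1, mul_one]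
    have h2 : 0 ≤ n * Bd + n * (η * t1 * (3 / 8) * n) := by positivity
    linarith
  · have h1 : irrI ((1 + η) * t1) M0 N A = 0 := by unfold irrI; rw [if_neg hirr]
    rw [h1, mul_zero, add_zero]
    have hreg := reg_of_not_irr hθ0 hA hirr
    have h2 : ∑ v ∈ T, FF m T Λ' v A = ∑ v ∈ T, ((ZZ m T (A \ Λ') v).card : ℝ) :=
      sum_RR_eq_sum_ZZ _
    rw [h2]
    have h3 : ∀ v ∈ T, ((ZZ m T (A \ Λ') v).card : ℝ) ≤ Bd + n * bI m T Δ v Λ' := by
      intro v hv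
      by_cases hb : (RR m T Λ' v).card ≤ Δ
      · have h4 : bI m T Δ v Λ' = 1 := by unfold bI; rw [if_pos hb]
        rw [h4, mul_one]
        have h5 : ZZ m T (A \ Λ') v ⊆ T := fun z hz => (mem_ZZ.1 hz).1
        have h6 : ((ZZ m T (A \ Λ') v).card : ℝ) ≤ n := by
          rw [hn]
          exact_mod_cast card_le_card h5
        linarith
      · have h4 : bI m T Δ v Λ' = 0 := by unfold bI; rw [if_neg hb]
        rw [h4, mul_zero, add_zero]
        have hpp1 := P.hpp1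
        have ht1c := P.ht1c
        exact ZZ_small X.cfg X.hΔ P.hε hCpos.le X.ih X.hD hv hreg hΛreg hθ0 (by linarith)
          (by linarith) hM0 hM' (by omega)
    refine (sum_le_sum h3).trans ?_
    rw [sum_add_distrib, sum_const, nsmul_eq_mul, ← mul_sum]
    have h6 := mul_le_mul_of_nonneg_left hbad hn0.le
    linarith

/-- a vertex and a label set with slow growth -/
theorem slow (X : Cex m T Δ N ε C) (P : Par ε C η K1 t1 q M0 M') {Λ' : Finset ℕ}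
    (hΛreg : reg (2 * q) M' Λ') (hbad : ∑ v ∈ T, bI m T Δ v Λ' ≤ η * t1 * (3 / 8) * T.card) :
    ∃ A ⊆ range N, ∃ v ∈ T, grad N (FF m T Λ' v) A + (K1 * FF m T Λ' v A +
      (10 * T.card) * irrI ((1 + η) * t1) M0 N A) ≤
        (1 + 2 * η) * (T.card + C * Δ) + 4 * η * T.card := by
  classical
  have ht10 := P.ht10
  have ht1c := P.ht1c
  have hK10 := P.hK10
  have hη0 := P.hη0
  set n : ℝ := (T.card : ℝ) with hn
  have hn0 : 0 < n := X.hn0
  set θ : ℝ := (1 + η) * t1 with hθ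
  set Bd : ℝ := (θ + 2 * q) * (n + C * Δ) + (M0 + M') * Δ with hBd
  set F : Finset ℕ → ℝ := fun A => ∑ v ∈ T, FF m T Λ' v A with hF
  have hFmono : Monotone F := by
    intro A B hAB
    exact sum_le_sum (fun v _ => FF_monotone Λ' v hAB)
  have ht11 : t1 ≤ 1 := by linarith
  set Q : ℝ := Bd + η * t1 * (5 / 8) * n with hQ
  have hEF : EE t1 N F ≤ n * Q := by
    have h1 := EE_mono ht10.le ht11 N (fun A hA => X.F_le P hΛreg hbad hA)
    rw [EE_add, EE_const, EE_smul] at h1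
    have h2 := mul_le_mul_of_nonneg_left (irrA P N t1 ht10.le le_rfl) (show 0 ≤ n * n by positivity)
    have h3 : n * Q = (n * Bd + n * (η * t1 * (3 / 8) * n)) + n * n * (η * t1 / 4) := by
      rw [hQ]; ring
    rw [h3]
    exact h1.trans (add_le_add_right h2 _)
  obtain ⟨t, ht0, htt1, htg⟩ := exists_small_grad (N := N) hFmono
    (show 0 ≤ F ∅ from sum_nonneg (fun v _ => FF_nonneg Λ' v ∅)) ht10 ht11
  have htg' : EE t N (grad N F) ≤ n * (Q / t1) := by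
    refine htg.trans ?_
    rw [← mul_div_assoc]
    exact div_le_div_of_nonneg_right hEF ht10.le
  have hEFt : EE t N F ≤ n * Q := (EE_mono_p ht0.le htt1.le ht11 N hFmono).trans hEF
  obtain ⟨A, hA, hAle⟩ := exists_le_EE ht0.le (by linarith : t ≤ 1) N
    (fun A => grad N F A + (K1 * F A + (10 * n * n) * irrI θ M0 N A))
  rw [EE_add, EE_add, EE_smul, EE_smul] at hAle
  have hAle' : grad N F A + (K1 * F A + (10 * n * n) * irrI θ M0 N A) ≤
      n * (Q / t1 + K1 * Q + 10 * n * (η * t1 / 4)) := by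
    refine hAle.trans ?_
    have h1 := mul_le_mul_of_nonneg_left hEFt hK10.le
    have h2 := mul_le_mul_of_nonneg_left (irrA P N t ht0.le htt1.le)
      (show 0 ≤ 10 * n * n by positivity)
    have h3 : n * (Q / t1 + K1 * Q + 10 * n * (η * t1 / 4)) =
      n * (Q / t1) + (K1 * (n * Q) + 10 * n * n * (η * t1 / 4)) := by ring
    rw [h3]
    exact add_le_add htg' (add_le_add h1 h2)
  have hMΔ := X.hMΔ P
  have hCΔ2 := (X.hCΔ2 P.hε).le
  have hQ1 : Q / t1 ≤ (1 + 2 * η) * (n + C * Δ) + 2 * η * n := by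
    rw [div_le_iff₀ ht10, hQ, hBd]
    exact ar_Q1 hη0 ht10 hn0 P.hpp hMΔ
  have hQ2 : Q ≤ 5 * t1 * n := by
    rw [hQ, hBd]
    exact ar_Q2 hη0 P.hη1 ht10 hn0 P.hpp hMΔ hCΔ2
  have hKQ : K1 * Q ≤ η * n := by
    have h1 := mul_le_mul_of_nonneg_left hQ2 hK10.le
    have h2 : K1 * (5 * t1 * n) = 5 * K1 * t1 * n := by ring
    rw [h2, P.hK1t1] at h1
    exact h1
  have hY := ar_Y hη0 ht1c hn0 hQ1 hKQ
  refine ⟨A, hA, ?_⟩
  by_contra hcon
  push Not at hcon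
  have h1 := sum_lt_sum_of_nonempty X.ne hcon
  rw [sum_const, nsmul_eq_mul, ← hn, sum_add_distrib, sum_add_distrib, ← mul_sum, sum_const,
    nsmul_eq_mul, ← hn, ← grad_sum] at h1
  have h2 : n * (10 * n * irrI θ M0 N A) = 10 * n * n * irrI θ M0 N A := by ring
  rw [h2] at h1
  have h3 := mul_le_mul_of_nonneg_left hY hn0.le
  exact absurd (lt_of_lt_of_le h1 (hAle'.trans h3)) (lt_irrefl _)

theorem contra (X : Cex m T Δ N ε C) (P : Par ε C η K1 t1 q M0 M') : False := by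
  classical
  obtain ⟨Λ', _, hΛreg, hbad⟩ := X.spread P
  obtain ⟨A, hA, v, hv, hvle⟩ := X.slow P hΛreg hbad
  have hn0 := X.hn0
  have hCΔ2 := (X.hCΔ2 P.hε).le
  have hY2 := ar_Y2 P.hη0 P.hη1 hn0 hCΔ2
  have hg0 : 0 ≤ grad N (FF m T Λ' v) A := grad_nonneg (FF_monotone Λ' v) A
  have hf0 : 0 ≤ FF m T Λ' v A := FF_nonneg _ _ _
  have hKf : 0 ≤ K1 * FF m T Λ' v A := mul_nonneg P.hK10.le hf0
  have hnirr : ¬ irr ((1 + η) * t1) M0 N A := by
    intro hirr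
    have h1 : irrI ((1 + η) * t1) M0 N A = 1 := by unfold irrI; rw [if_pos hirr]
    rw [h1, mul_one] at hvle
    linarith
  have hirr0 : irrI ((1 + η) * t1) M0 N A = 0 := by unfold irrI; rw [if_neg hnirr]
  rw [hirr0, mul_zero, add_zero] at hvle
  have hreg := reg_of_not_irr P.hθ0 hA hnirr
  set S := RR m T (A \ Λ') v with hS
  have hScard : FF m T Λ' v A = (S.card : ℝ) := rfl
  have hST : S ⊆ T := RR_sub
  obtain ⟨u, hu, hu3⟩ := three X.cfg.noClosed X.cfg.le S ⟨v, self_mem_RR hv⟩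
  have hin : ∑ y ∈ S, (m u y : ℝ) ≤ 3 * S.card := by
    have h1 : ((∑ y ∈ S, m u y : ℕ) : ℝ) ≤ ((3 * S.card : ℕ) : ℝ) := by exact_mod_cast hu3.le
    push_cast at h1
    exact h1
  have hSsmall : 3 * (S.card : ℝ) ≤ ε / 4 * T.card := by
    have h1 : K1 * (S.card : ℝ) ≤ 6 * T.card := by
      rw [← hScard]
      linarith
    rw [P.hK1, div_mul_eq_mul_div, div_le_iff₀ P.hε] at h1
    linarith
  have hgrad : (1 - ((1 + η) * t1 + 2 * q)) * ∑ y ∈ T \ S, (m u y : ℝ) - (M0 + M') * Δ ≤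
      grad N (FF m T Λ' v) A := by
    refine (mass_cut X.cfg (S := T \ S) sdiff_subset u (by linarith [P.hM0, P.hM'])
      (cut_union hreg hΛreg)).trans ?_
    exact grad_FF hu
  have hsplit : ∑ y ∈ T \ S, (m u y : ℝ) + ∑ y ∈ S, (m u y : ℝ) = ∑ y ∈ T, (m u y : ℝ) :=
    sum_sdiff hST
  have hDu := X.hD u (hST hu)
  have hout : (1 + ε) * T.card + C * Δ - ε / 4 * T.card ≤ ∑ y ∈ T \ S, (m u y : ℝ) := by linarith
  have hp0 : 0 ≤ (1 + η) * t1 + 2 * q := by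
    have h1 := P.hθ0
    have h2 := P.hq0
    linarith
  exact ar_final P.hε P.hε1 P.hη P.ht10 P.ht1b hn0 hCΔ2 hp0 P.hpp1 (X.hMΔ P) hout
    (hgrad.trans (by linarith))

end Cex

/-- **asymptotic bound**, weights version -/
theorem sparse {ε : ℝ} (hε : 0 < ε) (hε1 : ε ≤ 1) : ∃ C : ℝ, 0 ≤ C ∧ ∀ (V : Type) (Δ N : ℕ)
    (T : Finset V), T.Nonempty → ∀ m : V → V → ℕ, Cfg m T Δ N →
      ∃ u ∈ T, ∑ y ∈ T, (m u y : ℝ) < (1 + ε) * T.card + C * Δ := by
  classical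
  set η : ℝ := ε / 48 with hη
  set K1 : ℝ := 72 / ε with hK1
  set t1 : ℝ := η / (5 * K1) with ht1
  set q : ℝ := η * t1 / 2 with hq
  have hη0 : 0 < η := by positivity
  have hK0 : 0 < K1 := by positivity
  have ht0 : 0 < t1 := by positivity
  have hq0 : 0 < q := by positivity
  obtain ⟨M0, hM0, hδ3⟩ := exists_M (lam := Real.log (1 + η)) (δ := η * t1 / 4)
    (Real.log_pos (by linarith)) (by positivity)
  obtain ⟨M', hM', hδ'⟩ := exists_M (lam := Real.log (1 + 1)) (δ := η * t1 / 16)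
    (Real.log_pos (by norm_num)) (by positivity)
  have hc1 : 0 ≤ 48 / (q * (η * t1)) := by positivity
  have hc2 : 0 ≤ 2 * (M0 + M') / (η * t1) := by positivity
  refine ⟨3 + 48 / (q * (η * t1)) + 2 * (M0 + M') / (η * t1), by positivity, ?_⟩
  intro V Δ N T
  induction T using Finset.strongInduction with
  | H T ih =>
    intro hT0 m h
    by_contra hcon
    push Not at hcon
    have hn0 : (0 : ℝ) < T.card := by exact_mod_cast card_pos.2 hT0
    rcases Nat.eq_zero_or_pos Δ with hΔ | hΔ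
    · obtain ⟨u, hu⟩ := hT0
      have h1 := hcon u hu
      have h2 : ∑ y ∈ T, (m u y : ℝ) = 0 := by
        apply sum_eq_zero
        intro y hy
        have h3 := h.deg u
        rw [hΔ, Nat.le_zero, card_eq_zero, filter_eq_empty_iff] at h3
        have h4 := h3 hy
        have h5 : m u y = 0 := by omega
        rw [h5, Nat.cast_zero]
      rw [h2, hΔ] at h1
      simp only [Nat.cast_zero, mul_zero, add_zero] at h1
      have : 0 < (1 + ε) * (T.card : ℝ) := by positivity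
      linarith
    · exact Cex.contra ⟨h, hT0, hΔ, fun T' hT' hne m' hm' => ih T' hT' hne m' hm', hcon⟩
        ⟨hε, hε1, hη, hK1, ht1, hq, hM0, hM', hδ3, hδ', by linarith, by linarith, by linarith⟩

end Seym65
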