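import Pool.Agent.Seym65.Reg

/-!
# A sparse label set with which almost every vertex reaches `Δ + 1` vertices
-/

namespace Seym65

open Finset

variable {V : Type*} {m : V → V → ℕ} {T : Finset V} {Δ N : ℕ}

open Classical in
/-- indicator: `v` reaches at most `Δ` vertices -/
noncomputable def bI (m : V → V → ℕ) (T : Finset V) (Δ : ℕ) (v : V) (A : Finset ℕ) : ℝ :=
  if (RR m T A v).card ≤ Δ then 1 else 0

theorem bI_nonneg (v : V) (A : Finset ℕ) : 0 ≤ bI m T Δ v A := by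
  unfold bI
  split_ifs <;> norm_num

theorem bI_antitone (v : V) : Antitone (bI m T Δ v) := by
  intro A B hAB
  have h := card_le_card (RR_mono (m := m) (T := T) hAB v)
  unfold bI
  split_ifs with h1 h2
  · exact le_rfl
  · omega
  · norm_num
  · exact le_rfl

/-- truncated size -/
noncomputable def hT (m : V → V → ℕ) (T : Finset V) (Δ : ℕ) (v : V) (A : Finset ℕ) : ℝ :=
  min ((RR m T A v).card : ℝ) (2 * Δ + 1)

theorem hT_monotone (v : V) : Monotone (hT m T Δ v) := by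
  intro A B hAB
  unfold hT
  apply min_le_min_right
  exact_mod_cast card_le_card (RR_mono hAB v)

theorem grad_hT (h : Cfg m T Δ N) {q M' : ℝ} (hq : 0 ≤ q) (hq8 : q ≤ 1 / 8) (hM' : 0 ≤ M')
    (hD : ∀ u ∈ T, (T.card : ℝ) + 3 * Δ ≤ ∑ y ∈ T, (m u y : ℝ)) (hMD : M' * Δ ≤ T.card / 4)
    {v : V} (hv : v ∈ T) {A : Finset ℕ} (hA : A ⊆ range N) :
    (T.card : ℝ) / 2 * (bI m T Δ v A - irrI (2 * q) M' N A) ≤ grad N (hT m T Δ v) A := by
  classical
  have hg := grad_nonneg (N := N) (hT_monotone (m := m) (T := T) (Δ := Δ) v) A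
  have hn : (0 : ℝ) ≤ T.card := Nat.cast_nonneg _
  by_cases hb : (RR m T A v).card ≤ Δ
  · by_cases hirr : irr (2 * q) M' N A
    · have : bI m T Δ v A - irrI (2 * q) M' N A = 0 := by
        unfold bI irrI
        rw [if_pos hb, if_pos hirr]
        ring
      rw [this, mul_zero]
      exact hg
    · have hone : bI m T Δ v A - irrI (2 * q) M' N A = 1 := by
        unfold bI irrI
        rw [if_pos hb, if_neg hirr]
        ring
      rw [hone, mul_one]
      set S := RR m T A v with hS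
      obtain ⟨u, hu, hu3⟩ := three h.noClosed h.le S ⟨v, self_mem_RR hv⟩
      have hreg := reg_of_not_irr (by linarith : 0 ≤ 2 * q) hA hirr
      have hmass := mass_cut h (S := T \ S) sdiff_subset u hM' (cut_reg hreg)
      have hST : S ⊆ T := RR_sub
      have hsplit : ∑ y ∈ T \ S, (m u y : ℝ) + ∑ y ∈ S, (m u y : ℝ) = ∑ y ∈ T, (m u y : ℝ) :=
        sum_sdiff hST
      have hin : ∑ y ∈ S, (m u y : ℝ) ≤ 3 * Δ := by
        have h1 : ((∑ y ∈ S, m u y : ℕ) : ℝ) ≤ ((3 * S.card : ℕ) : ℝ) := by exact_mod_cast hu3.le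
        push_cast at h1
        have h2 : (S.card : ℝ) ≤ Δ := by exact_mod_cast hb
        linarith
      have hout : (T.card : ℝ) ≤ ∑ y ∈ T \ S, (m u y : ℝ) := by
        have := hD u (hST hu)
        linarith
      have hlow : (T.card : ℝ) / 2 ≤ (1 - 2 * q) * ∑ y ∈ T \ S, (m u y : ℝ) - M' * Δ := by
        have h1 : (3 / 4 : ℝ) * T.card ≤ (1 - 2 * q) * ∑ y ∈ T \ S, (m u y : ℝ) := by
          apply mul_le_mul (by linarith) hout hn (by linarith)
        linarith
      refine hlow.trans (hmass.trans ?_)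
      unfold grad
      apply sum_le_sum
      intro x hx
      have hxA : x ∉ A := (mem_sdiff.1 hx).2
      have hgr := growth_one (m := m) (T := T) hu hxA
      have ha : ((T \ S).filter (fun y => x < m u y)).card ≤ Δ := by
        refine (card_le_card ?_).trans (h.deg u)
        intro y hy
        rw [mem_filter, mem_sdiff] at hy
        exact mem_filter.2 ⟨hy.1.1, by omega⟩
      unfold hT
      have h1 : (((RR m T A v).card : ℕ) : ℝ) ≤ 2 * Δ + 1 := by
        have : ((RR m T A v).card : ℝ) ≤ Δ := by exact_mod_cast hb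
        have h0 : (0 : ℝ) ≤ Δ := Nat.cast_nonneg _
        linarith
      rw [min_eq_left h1, le_sub_iff_add_le]
      apply le_min
      · rw [add_comm]
        exact_mod_cast hgr
      · have h2 : ((RR m T A v).card : ℝ) ≤ Δ := by exact_mod_cast hb
        have h3 : (((T \ S).filter (fun y => x < m u y)).card : ℝ) ≤ Δ := by exact_mod_cast ha
        linarith
  · have h1 : bI m T Δ v A - irrI (2 * q) M' N A ≤ 0 := by
      unfold bI
      rw [if_neg hb]
      have := irrI_nonneg (2 * q) M' N A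
      linarith
    have h2 : (T.card : ℝ) / 2 * (bI m T Δ v A - irrI (2 * q) M' N A) ≤ 0 :=
      mul_nonpos_of_nonneg_of_nonpos (by linarith) h1
    linarith

theorem EE_bI (h : Cfg m T Δ N) (hT0 : T.Nonempty) {q M' δ' : ℝ} (hq : 0 < q) (hq8 : q ≤ 1 / 8)
    (hM' : 0 ≤ M')
    (hD : ∀ u ∈ T, (T.card : ℝ) + 3 * Δ ≤ ∑ y ∈ T, (m u y : ℝ)) (hMD : M' * Δ ≤ T.card / 4)
    (hδ : ∀ t, 0 ≤ t → t ≤ q → EE t N (irrI (2 * q) M' N) ≤ δ') {v : V} (hv : v ∈ T) :
    EE q N (bI m T Δ v) ≤ 2 * (2 * Δ + 1) / (q * T.card) + δ' := by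
  have hn : (0 : ℝ) < T.card := by exact_mod_cast card_pos.2 hT0
  obtain ⟨t, ht0, htq, ht⟩ := exists_small_grad (N := N) (hT_monotone (m := m) (T := T) (Δ := Δ) v)
    (by unfold hT; positivity) hq (by linarith)
  have h1 : EE q N (hT m T Δ v) ≤ 2 * Δ + 1 := by
    have := EE_mono hq.le (by linarith : q ≤ 1) N (F := hT m T Δ v) (G := fun _ => 2 * (Δ : ℝ) + 1)
      (fun A _ => min_le_right _ _)
    rwa [EE_const] at this
  have h2 := EE_mono ht0.le (by linarith : t ≤ 1) N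
    (fun A hA => grad_hT h hq.le hq8 hM' hD hMD hv hA)
  rw [EE_smul, EE_sub] at h2
  have h3 := EE_anti_p ht0.le htq.le (by linarith : q ≤ 1) N (bI_antitone (m := m) (T := T) (Δ := Δ) v)
  have h4 := hδ t ht0.le htq.le
  have h5 : EE q N (hT m T Δ v) / q ≤ (2 * Δ + 1) / q := by
    apply div_le_div_of_nonneg_right h1 hq.le
  have h6 : (T.card : ℝ) / 2 * (EE q N (bI m T Δ v) - δ') ≤ (2 * Δ + 1) / q := by
    refine le_trans ?_ (h2.trans (ht.trans h5))
    apply mul_le_mul_of_nonneg_left _ (by linarith)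
    linarith
  have h7 : 2 * (2 * Δ + 1) / (q * T.card) = (2 * Δ + 1) / q / ((T.card : ℝ) / 2) := by
    field_simp
  rw [h7, ← sub_le_iff_le_add, le_div_iff₀ (by linarith)]
  linarith

/-- existence of the sparse set -/
theorem exists_spread (h : Cfg m T Δ N) (hT0 : T.Nonempty) {q M' δ' : ℝ} (hq : 0 < q)
    (hq8 : q ≤ 1 / 8) (hM' : 0 ≤ M')
    (hD : ∀ u ∈ T, (T.card : ℝ) + 3 * Δ ≤ ∑ y ∈ T, (m u y : ℝ)) (hMD : M' * Δ ≤ T.card / 4)
    (hδ : ∀ t, 0 ≤ t → t ≤ q → EE t N (irrI (2 * q) M' N) ≤ δ')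
    (hsmall : 2 * (2 * Δ + 1) / (q * T.card) + 2 * δ' < 1) :
    ∃ Λ' ⊆ range N, reg (2 * q) M' Λ' ∧
      ∑ v ∈ T, bI m T Δ v Λ' ≤ (2 * (2 * Δ + 1) / (q * T.card) + 2 * δ') * T.card := by
  have hn : (0 : ℝ) < T.card := by exact_mod_cast card_pos.2 hT0
  obtain ⟨A, hA, hle⟩ := exists_le_EE hq.le (by linarith : q ≤ 1) N
    (fun A => ∑ v ∈ T, bI m T Δ v A + (T.card : ℝ) * irrI (2 * q) M' N A)
  rw [EE_add, EE_sum, EE_smul] at hle
  have h1 : ∑ v ∈ T, EE q N (bI m T Δ v) ≤ ∑ v ∈ T, (2 * (2 * Δ + 1) / (q * T.card) + δ') :=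
    sum_le_sum (fun v hv => EE_bI h hT0 hq hq8 hM' hD hMD hδ hv)
  rw [sum_const, nsmul_eq_mul] at h1
  have h2 := mul_le_mul_of_nonneg_left (hδ q hq.le le_rfl) hn.le
  have h3 : ∑ v ∈ T, bI m T Δ v A + (T.card : ℝ) * irrI (2 * q) M' N A ≤
      (2 * (2 * Δ + 1) / (q * T.card) + 2 * δ') * T.card := by
    linarith
  have hsum0 : 0 ≤ ∑ v ∈ T, bI m T Δ v A := sum_nonneg (fun v _ => bI_nonneg v A)
  have hnirr : ¬ irr (2 * q) M' N A := by
    intro hirr
    have h4 : irrI (2 * q) M' N A = 1 := by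
      unfold irrI
      rw [if_pos hirr]
    rw [h4, mul_one] at h3
    have h5 := mul_lt_mul_of_pos_right hsmall hn
    linarith
  refine ⟨A, hA, reg_of_not_irr (by linarith) hA hnirr, ?_⟩
  have h4 : irrI (2 * q) M' N A = 0 := by
    unfold irrI
    rw [if_neg hnirr]
  rw [h4, mul_zero, add_zero] at h3
  exact h3

end Seym65
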